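import Pool.Agent.R766.Rotor.Moment

/-!
Construction of the function `h`.
-/

open Filter Topology
open scoped ENNReal

namespace R766.Rotor

variable {d : ℕ}

/-- The integer valued source. -/
noncomputable def src (i : Fin d) : V d → ℝ := ((D i) ^ 5) δ

lemma FS_src (i : Fin d) : FS (src i) := FS_pow (D i) (fun _ hf => FS_D i hf) 5 FS_δ

lemma comm_TD_Sh (i : Fin d) (m : ℕ) (v : V d) : Commute (T ^ m * D i) (Sh v) :=
  ((T_comm_Sh v).pow_left m).mul_left (D_comm_Sh i v)

lemma N_decay (hd : 0 < d) (i : Fin d) (n : ℕ) :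
    N ((T ^ n) (src i)) ≤ ENNReal.ofReal (25 * (2 * d) ^ 5 / ((n : ℝ) + 1) ^ 2) := by
  have hd' : (0 : ℝ) < d := by exact_mod_cast hd
  set m := n / 5 with hm
  set r := n % 5 with hr
  have hn : n = r + m * 5 := by omega
  have h1 : (T ^ n) (src i) = (T ^ r) (((T ^ m * D i : Module.End ℝ (V d → ℝ)) ^ 5) δ) := by
    rw [((T_comm_D i).pow_left m).mul_pow 5, ← pow_mul, src, hn, pow_add]
    rfl
  rw [h1]
  have h2 : N ((T ^ m * D i : Module.End ℝ (V d → ℝ)) δ)
      ≤ ENNReal.ofReal (2 * d / Real.sqrt (m + 1)) := by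
    rw [Module.End.mul_apply]
    exact N_grad hd i m
  refine (N_T_pow r _).trans ((kernel_pow _ (comm_TD_Sh i m) (fun f hf => ?_) 5).trans ?_)
  · rw [Module.End.mul_apply]
    exact FS_T_pow m (FS_D i hf)
  refine (pow_le_pow_left' h2 5).trans ?_
  rw [← ENNReal.ofReal_pow (by positivity)]
  refine ENNReal.ofReal_le_ofReal ?_
  set s : ℝ := Real.sqrt (m + 1) with hs
  have hs1 : 1 ≤ s := by
    rw [hs]; exact Real.one_le_sqrt.2 (by have : (0 : ℝ) ≤ m := by positivity
                                          linarith)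
  have hs2 : s * s = m + 1 := Real.mul_self_sqrt (by positivity)
  have hmn : ((n : ℝ) + 1) ≤ 5 * (m + 1) := by
    have : n + 1 ≤ 5 * (m + 1) := by omega
    exact_mod_cast this
  rw [div_pow, div_le_div_iff₀ (by positivity) (by positivity)]
  have h3 : ((n : ℝ) + 1) ^ 2 ≤ 25 * s ^ 5 := by
    calc ((n : ℝ) + 1) ^ 2 ≤ (5 * (m + 1)) ^ 2 := by gcongr
      _ = 25 * s ^ 4 * 1 := by rw [← hs2]; ring
      _ ≤ 25 * s ^ 4 * s := by gcongr
      _ = 25 * s ^ 5 := by ring
  calc (2 * (d : ℝ)) ^ 5 * ((n : ℝ) + 1) ^ 2 ≤ (2 * (d : ℝ)) ^ 5 * (25 * s ^ 5) := by gcongr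
    _ = 25 * (2 * d) ^ 5 * s ^ 5 := by ring

lemma abs_le_N (f : V d → ℝ) (x : V d) {c : ℝ} (hc : 0 ≤ c) (h : N f ≤ ENNReal.ofReal c) :
    |f x| ≤ c := by
  have h1 : ‖f x‖ₑ ≤ N f := ENNReal.le_tsum x
  rw [Real.enorm_eq_ofReal_abs] at h1
  exact (ENNReal.ofReal_le_ofReal_iff hc).1 (h1.trans h)

lemma summable_bound (C : ℝ) : Summable (fun n : ℕ => C / ((n : ℝ) + 1) ^ 2) := by
  have h := (summable_nat_add_iff 1).2 (Real.summable_one_div_nat_pow.2 (one_lt_two))
  have h2 := h.mul_left C
  refine h2.congr (fun n => ?_)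
  push_cast
  ring

/-- The function `h`. -/
noncomputable def hh (i : Fin d) : V d → ℝ := fun x => ∑' n : ℕ, (T ^ n) (src i) x

lemma bound_nonneg (n : ℕ) : (0 : ℝ) ≤ 25 * (2 * d) ^ 5 / ((n : ℝ) + 1) ^ 2 := by positivity

lemma summable_term (hd : 0 < d) (i : Fin d) (x : V d) :
    Summable (fun n : ℕ => (T ^ n) (src i) x) := by
  refine Summable.of_norm_bounded (summable_bound (25 * (2 * (d : ℝ)) ^ 5)) (fun n => ?_)
  exact abs_le_N _ _ (bound_nonneg n) (N_decay hd i n)

lemma summable_hh (hd : 0 < d) (i : Fin d) : Summable (fun x => |hh i x|) := by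
  have h1 : N (hh i) ≤ ∑' n : ℕ, N ((T ^ n) (src i)) := by
    unfold N
    rw [ENNReal.tsum_comm]
    refine ENNReal.tsum_le_tsum (fun x => ?_)
    unfold hh
    exact enorm_tsum_le_tsum_enorm
  have h2 : ∑' n : ℕ, N ((T ^ n) (src i)) ≠ ⊤ := by
    refine ne_top_of_le_ne_top ?_ (ENNReal.tsum_le_tsum (fun n => N_decay hd i n))
    exact (summable_bound (25 * (2 * (d : ℝ)) ^ 5)).tsum_ofReal_ne_top
  have h3 : N (hh i) ≠ ⊤ := ne_top_of_le_ne_top h2 h1
  unfold N at h3
  have h4 : Summable (fun x => ‖hh i x‖₊) := by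
    rw [← ENNReal.tsum_coe_ne_top_iff_summable]
    exact h3
  have h5 := NNReal.summable_coe.2 h4
  simpa using h5

lemma T_hh (hd : 0 < d) (i : Fin d) (x : V d) : T (hh i) x = hh i x - src i x := by
  rw [T_apply]
  have h1 : ∑ e : Dir d, hh i (x + vec e) = ∑' n : ℕ, ∑ e : Dir d, (T ^ n) (src i) (x + vec e) := by
    unfold hh
    rw [Summable.tsum_finsetSum (fun e _ => summable_term hd i _)]
  rw [h1, ← tsum_mul_left]
  have h2 : ∀ n : ℕ, (1 / (2 * d : ℝ)) * ∑ e : Dir d, (T ^ n) (src i) (x + vec e)
      = (T ^ (n + 1)) (src i) x := by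
    intro n
    rw [pow_succ', Module.End.mul_apply, T_apply]
  simp_rw [h2]
  have h3 := (summable_term hd i x).tsum_eq_zero_add
  unfold hh
  rw [h3]
  simp

lemma lap_hh (hd : 0 < d) (i : Fin d) (x : V d) :
    ∑ e : Dir d, (hh i (x + vec e) - hh i x) = 2 * d * (- src i x) := by
  have hd' : (0 : ℝ) < d := by exact_mod_cast hd
  have h1 := T_hh hd i x
  rw [T_apply] at h1
  rw [Finset.sum_sub_distrib]
  simp only [Finset.sum_const, Finset.card_univ, Fintype.card_prod, Fintype.card_fin,
    Fintype.card_bool, nsmul_eq_mul]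
  push_cast
  have h2 : ∑ e : Dir d, hh i (x + vec e) = (2 * d) * (hh i x - src i x) := by
    rw [← h1]; field_simp
  rw [h2]; ring

/-- Integer valued functions. -/
def IntV (f : V d → ℝ) : Prop := ∀ x, ∃ k : ℤ, f x = k

lemma IntV_δ : IntV (δ : V d → ℝ) := by
  classical
  intro x
  by_cases hx : x = 0
  · exact ⟨1, by subst hx; simp [δ]⟩
  · exact ⟨0, by simp [δ, hx]⟩

lemma IntV_D (i : Fin d) {f : V d → ℝ} (hf : IntV f) : IntV (D i f) := by
  intro x
  obtain ⟨a, ha⟩ := hf (x + vec (i, false))
  obtain ⟨b, hb⟩ := hf (x + vec (i, true))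
  exact ⟨a - b, by rw [D_apply, ha, hb]; push_cast; ring⟩

lemma pow_five (K : Module.End ℝ (V d → ℝ)) (f : V d → ℝ) :
    (K ^ 5) f = K (K (K (K (K f)))) := by
  simp [pow_succ, Module.End.mul_apply]

lemma IntV_src (i : Fin d) : IntV (src i) := by
  unfold src
  rw [pow_five]
  exact IntV_D i (IntV_D i (IntV_D i (IntV_D i (IntV_D i IntV_δ))))

/-- Odd functions (`c = -1`) and even functions (`c = 1`). -/
def Par (c : ℝ) (f : V d → ℝ) : Prop := ∀ x, f (-x) = c * f x

lemma Par_δ : Par 1 (δ : V d → ℝ) := by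
  classical
  intro x
  by_cases hx : x = 0
  · subst hx; simp
  · have : -x ≠ 0 := by simpa using hx
    simp [δ, hx]

lemma Par_D (i : Fin d) (c : ℝ) {f : V d → ℝ} (hf : Par c f) : Par (-c) (D i f) := by
  intro x
  rw [D_apply, D_apply]
  have h1 : -x + vec (i, false) = -(x + vec (i, true)) := by
    have : vec (i, false) = - vec (d := d) (i, true) := vec_opp (i, true)
    rw [this]; abel
  have h2 : -x + vec (i, true) = -(x + vec (i, false)) := by
    have : vec (i, false) = - vec (d := d) (i, true) := vec_opp (i, true)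
    rw [this]; abel
  rw [h1, h2, hf, hf]; ring

lemma Par_T (c : ℝ) {f : V d → ℝ} (hf : Par c f) : Par c (T f) := by
  intro x
  rw [T_apply, T_apply, ← Equiv.sum_comp oppEquiv]
  have h1 : ∀ e : Dir d, f (-x + vec (oppEquiv e)) = c * f (x + vec e) := by
    intro e
    have : -x + vec (oppEquiv e) = -(x + vec e) := by
      change -x + vec (opp e) = _
      rw [vec_opp]; abel
    rw [this, hf]
  simp_rw [h1]
  rw [← Finset.mul_sum]; ring

lemma Par_src (i : Fin d) : Par (-1) (src i) := by
  unfold src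
  rw [pow_five]
  have h := Par_D i _ (Par_D i _ (Par_D i _ (Par_D i _ (Par_D i _ (Par_δ (d := d))))))
  norm_num at h
  exact h

lemma Par_T_pow (c : ℝ) {f : V d → ℝ} (hf : Par c f) (n : ℕ) : Par c ((T ^ n) f) := by
  induction n with
  | zero => simpa using hf
  | succ n ih =>
    rw [pow_succ', Module.End.mul_apply]
    exact Par_T c ih

lemma hh_zero (i : Fin d) : hh i 0 = 0 := by
  unfold hh
  have : ∀ n : ℕ, (T ^ n) (src i) 0 = 0 := by
    intro n
    have h := Par_T_pow (-1) (Par_src i) n 0
    rw [neg_zero] at h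
    linarith
  simp [this]

/-- `D` is injective on finitely supported functions. -/
lemma D_ne_zero (i : Fin d) {f : V d → ℝ} (hf : FS f) (h0 : f ≠ 0) : D i f ≠ 0 := by
  classical
  have hne : hf.toFinset.Nonempty := by
    obtain ⟨x, hx⟩ := Function.ne_iff.1 h0
    exact ⟨x, by simpa using hx⟩
  obtain ⟨x, hx, hmax⟩ := hf.toFinset.exists_max_image (fun x => x i) hne
  intro hD
  have h1 := congrFun hD (x + vec (i, true))
  rw [D_apply] at h1
  have h2 : x + vec (i, true) + vec (i, false) = x := by
    have : vec (i, false) = - vec (d := d) (i, true) := vec_opp (i, true)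
    rw [this]; abel
  rw [h2] at h1
  have h3 : f (x + vec (i, true) + vec (i, true)) = 0 := by
    by_contra hcon
    have := hmax _ (by simpa using hcon)
    simp only [Pi.add_apply, vec_apply_true] at this
    simp at this
  rw [h3, sub_zero] at h1
  have hx' : f x ≠ 0 := by simpa using hx
  exact hx' (by simpa using h1)

lemma δ_ne_zero : (δ : V d → ℝ) ≠ 0 := by
  classical
  intro h
  have := congrFun h 0
  simp [δ] at this

lemma src_ne_zero (i : Fin d) : src i ≠ 0 := by
  unfold src
  rw [pow_five]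
  have f0 := FS_δ (d := d)
  have f1 := FS_D i f0
  have f2 := FS_D i f1
  have f3 := FS_D i f2
  have f4 := FS_D i f3
  exact D_ne_zero i f4 (D_ne_zero i f3 (D_ne_zero i f2 (D_ne_zero i f1 (D_ne_zero i f0 δ_ne_zero))))

/-- Functions supported in the hyperplane of points with zero `j`-th coordinate. -/
def Hyp (j : Fin d) (f : V d → ℝ) : Prop := ∀ x, x j ≠ 0 → f x = 0

lemma Hyp_D {i j : Fin d} (hij : i ≠ j) {f : V d → ℝ} (hf : Hyp j f) : Hyp j (D i f) := by
  intro x hx
  rw [D_apply]
  have h1 : (x + vec (i, false)) j ≠ 0 := by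
    rw [Pi.add_apply, vec_apply_false, if_neg (Ne.symm hij)]; simpa using hx
  have h2 : (x + vec (i, true)) j ≠ 0 := by
    rw [Pi.add_apply, vec_apply_true, if_neg (Ne.symm hij)]; simpa using hx
  rw [hf _ h1, hf _ h2]; ring

lemma Hyp_δ (j : Fin d) : Hyp j (δ : V d → ℝ) := by
  classical
  intro x hx
  have : x ≠ 0 := by rintro rfl; simp at hx
  simp [δ, this]

lemma Hyp_src {i j : Fin d} (hij : i ≠ j) : Hyp j (src i) := by
  unfold src
  rw [pow_five]
  exact Hyp_D hij (Hyp_D hij (Hyp_D hij (Hyp_D hij (Hyp_D hij (Hyp_δ j)))))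

/-- If all differences are integers then the function is integer valued. -/
lemma IntV_of_diff (j : Fin d) (f : V d → ℝ) (hs : Summable (fun x => |f x|))
    (h : ∀ x, ∃ k : ℤ, f (x + vec (j, true)) - f x = k) : IntV f := by
  intro x
  have hinj : Function.Injective (fun n : ℕ => x + (n : ℤ) • (vec (j, true) : V d)) := by
    intro a b hab
    have := congrFun hab j
    simp [vec_apply_true] at this
    exact this
  have hlim : Tendsto (fun n : ℕ => f (x + (n : ℤ) • (vec (j, true) : V d))) atTop (𝓝 0) := by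
    have h1 := hs.tendsto_cofinite_zero
    have h2 := h1.comp hinj.tendsto_cofinite
    rw [Nat.cofinite_eq_atTop] at h2
    exact (tendsto_zero_iff_abs_tendsto_zero _).2 h2
  have hint : ∀ n : ℕ, ∃ k : ℤ, f x - f (x + (n : ℤ) • (vec (j, true) : V d)) = k := by
    intro n
    induction n with
    | zero => exact ⟨0, by simp⟩
    | succ n ih =>
      obtain ⟨k, hk⟩ := ih
      obtain ⟨l, hl⟩ := h (x + (n : ℤ) • (vec (j, true) : V d))
      refine ⟨k - l, ?_⟩
      have h3 : x + ((n + 1 : ℕ) : ℤ) • (vec (j, true) : V d)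
          = x + (n : ℤ) • (vec (j, true) : V d) + vec (j, true) := by
        push_cast
        rw [add_smul, one_smul, add_assoc]
      rw [h3]
      push_cast
      rw [← hk, ← hl]; ring
  have hlim2 : Tendsto (fun n : ℕ => f x - f (x + (n : ℤ) • (vec (j, true) : V d))) atTop
      (𝓝 (f x)) := by
    simpa using (tendsto_const_nhds (x := f x)).sub hlim
  have hcl : IsClosed (Set.range ((↑) : ℤ → ℝ)) := Int.isClosedEmbedding_coe_real.isClosed_range
  have := hcl.mem_of_tendsto hlim2 (Eventually.of_forall (fun n => by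
    obtain ⟨k, hk⟩ := hint n
    exact ⟨k, hk.symm⟩))
  obtain ⟨k, hk⟩ := this
  exact ⟨k, hk.symm⟩

lemma FS_of_IntV (f : V d → ℝ) (hs : Summable (fun x => |f x|)) (hI : IntV f) : FS f := by
  have h1 := hs.tendsto_cofinite_zero
  have h2 : ∀ᶠ x in cofinite, |f x| < 1 := h1.eventually (gt_mem_nhds one_pos)
  unfold FS
  refine (Filter.eventually_cofinite.1 h2).subset ?_
  intro x hx
  obtain ⟨k, hk⟩ := hI x
  simp only [Set.mem_ofPred_eq, not_lt]
  rw [hk]
  have hk0 : k ≠ 0 := by
    rintro rfl
    exact hx (by simpa using hk)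
  have := Int.one_le_abs hk0
  exact_mod_cast this

/-- A finitely supported solution of the equation with source in a hyperplane vanishes. -/
lemma eq_zero_of_lap (hd : 0 < d) (j : Fin d) (f g : V d → ℝ) (hf : FS f) (hg : Hyp j g)
    (h : ∀ x, T f x = f x - g x) : f = 0 := by
  classical
  have hd' : (0 : ℝ) < d := by exact_mod_cast hd
  by_contra h0
  have hne : hf.toFinset.Nonempty := by
    obtain ⟨x, hx⟩ := Function.ne_iff.1 h0
    exact ⟨x, by simpa using hx⟩
  obtain ⟨x, hx, hmax⟩ := hf.toFinset.exists_max_image (fun x => x j) hne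
  obtain ⟨y, hy, hmin⟩ := hf.toFinset.exists_min_image (fun x => x j) hne
  have hx' : f x ≠ 0 := by simpa using hx
  have hy' : f y ≠ 0 := by simpa using hy
  by_cases hxj : 0 ≤ x j
  · have h1 := h (x + vec (j, true))
    have hf0 : f (x + vec (j, true)) = 0 := by
      by_contra hcon
      have := hmax _ (by simpa using hcon)
      simp only [Pi.add_apply, vec_apply_true] at this
      simp at this
    have hg0 : g (x + vec (j, true)) = 0 := by
      refine hg _ ?_
      simp only [Pi.add_apply, vec_apply_true, if_true]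
      omega
    rw [hf0, hg0, T_apply, Finset.sum_eq_single (j, false)] at h1
    · have h2 : x + vec (j, true) + vec (j, false) = x := by
        have : vec (j, false) = - vec (d := d) (j, true) := vec_opp (j, true)
        rw [this]; abel
      rw [h2] at h1
      have : f x = 0 := by
        have h3 : (1 / (2 * (d : ℝ))) ≠ 0 := by positivity
        rw [sub_zero] at h1
        exact (mul_eq_zero.1 h1).resolve_left h3
      exact hx' this
    · rintro ⟨k, b⟩ _ hkb
      by_contra hcon
      have := hmax _ (by simpa using hcon)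
      cases b with
      | true =>
        simp only [Pi.add_apply, vec_apply_true, if_true] at this
        split_ifs at this <;> omega
      | false =>
        simp only [Pi.add_apply, vec_apply_true, vec_apply_false, if_true] at this
        split_ifs at this with hjk
        · exact hkb (by rw [hjk])
        · omega
    · intro h; exact absurd (Finset.mem_univ _) h
  · have hyj : y j < 0 := lt_of_le_of_lt (hmin x hx) (not_le.1 hxj)
    have h1 := h (y + vec (j, false))
    have hf0 : f (y + vec (j, false)) = 0 := by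
      by_contra hcon
      have := hmin _ (by simpa using hcon)
      simp only [Pi.add_apply, vec_apply_false] at this
      simp at this
    have hg0 : g (y + vec (j, false)) = 0 := by
      refine hg _ ?_
      simp only [Pi.add_apply, vec_apply_false, if_true]
      omega
    rw [hf0, hg0, T_apply, Finset.sum_eq_single (j, true)] at h1
    · have h2 : y + vec (j, false) + vec (j, true) = y := by
        have : vec (j, false) = - vec (d := d) (j, true) := vec_opp (j, true)
        rw [this]; abel
      rw [h2] at h1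
      have : f y = 0 := by
        have h3 : (1 / (2 * (d : ℝ))) ≠ 0 := by positivity
        rw [sub_zero] at h1
        exact (mul_eq_zero.1 h1).resolve_left h3
      exact hy' this
    · rintro ⟨k, b⟩ _ hkb
      by_contra hcon
      have := hmin _ (by simpa using hcon)
      cases b with
      | false =>
        simp only [Pi.add_apply, vec_apply_false, if_true] at this
        split_ifs at this <;> omega
      | true =>
        simp only [Pi.add_apply, vec_apply_true, vec_apply_false, if_true] at this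
        split_ifs at this with hjk
        · exact hkb (by rw [hjk])
        · omega
    · intro h; exact absurd (Finset.mem_univ _) h

/-- The existence of `h`. -/
theorem exists_h (hd : 2 ≤ d) :
    ∃ h : V d → ℝ, Summable (fun x => |h x|) ∧ h 0 = 0 ∧
      (∀ x, ∃ k : ℤ, ∑ e : Dir d, (h (x + vec e) - h x) = 2 * d * k) ∧
      ∃ (x : V d) (e : Dir d), ∀ k : ℤ, h (x + vec e) - h x ≠ k := by
  have hd0 : 0 < d := by omega
  have hd' : (0 : ℝ) < d := by exact_mod_cast hd0
  set i : Fin d := ⟨0, hd0⟩
  set j : Fin d := ⟨1, by omega⟩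
  have hij : i ≠ j := by simp [i, j, Fin.ext_iff]
  refine ⟨hh i, summable_hh hd0 i, hh_zero i, ?_, ?_⟩
  · intro x
    obtain ⟨k, hk⟩ := IntV_src i x
    exact ⟨-k, by rw [lap_hh hd0, hk]; push_cast; ring⟩
  · by_contra hcon
    push Not at hcon
    have hI : IntV (hh i) := IntV_of_diff j (hh i) (summable_hh hd0 i) (fun x => hcon x _)
    have hF : FS (hh i) := FS_of_IntV _ (summable_hh hd0 i) hI
    have h0 : hh i = 0 := eq_zero_of_lap hd0 j (hh i) (src i) hF (Hyp_src hij) (T_hh hd0 i)
    apply src_ne_zero i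
    ext x
    have h1 := T_hh hd0 i x
    rw [h0] at h1
    simp at h1
    simpa using h1

end R766.Rotor
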