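import Pool.Agent.R766.Rotor.Other

/-!
Oriented wired spanning forests of finite boxes, and local randomness of their limits.
-/

open MeasureTheory Filter Topology

namespace R766.Rotor

variable {d : ℕ}

/-- The oriented edges `x → x + vec (f x)`, for `x` in the finite set `Λ`. -/
def Edge (Λ : Finset (V d)) (f : {x // x ∈ Λ} → Dir d) (x y : V d) : Prop :=
  ∃ hx : x ∈ Λ, y = x + vec (f ⟨x, hx⟩)

/-- `f` is a spanning forest oriented towards the complement of `Λ`: each vertex of `Λ` has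
one out-edge, given by `f`, the other vertices have none, and there is no oriented cycle. -/
def IsForest (Λ : Finset (V d)) (f : {x // x ∈ Λ} → Dir d) : Prop :=
  ∀ x, ¬ Relation.TransGen (Edge Λ f) x x

open Classical in
/-- The finite set of the spanning forests oriented towards the complement of `Λ`. -/
noncomputable def forests (Λ : Finset (V d)) : Finset ({x // x ∈ Λ} → Dir d) :=
  Finset.univ.filter (IsForest Λ)

open Classical in
/-- The probability that the uniform oriented spanning forest contains all the oriented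
edges of `B`, the pair `(x, e)` standing for the edge from `x` to `x + vec e`. -/
noncomputable def forestProb (Λ : Finset (V d)) (B : Finset (V d × Dir d)) : ℝ :=
  (((forests Λ).filter (fun f => ∀ b ∈ B, ∃ hx : b.1 ∈ Λ, f ⟨b.1, hx⟩ = b.2)).card : ℝ)
    / ((forests Λ).card : ℝ)

/-- `μ` is the oriented wired uniform spanning forest measure: a probability measure which,
along an exhaustion by finite sets, is the limit of the uniform measures on oriented wired
spanning forests, on all finite sets of oriented edges. -/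
structure IsOWUSF (μ : Measure (Cfg d)) : Prop where
  prob : IsProbabilityMeasure μ
  lim : ∃ Λ : ℕ → Finset (V d), Monotone Λ ∧ (∀ x, ∃ R, x ∈ Λ R) ∧
    ∀ B : Finset (V d × Dir d),
      Tendsto (fun R => forestProb (Λ R) B) atTop (𝓝 (μ.real {ρ | ∀ b ∈ B, ρ b.1 = b.2}))

/-! ### Exits -/

/-- The path of `f` from `x` leaves `Λ`. -/
inductive Exits (Λ : Finset (V d)) (f : {x // x ∈ Λ} → Dir d) : V d → Prop
  | out (x : V d) (hx : x ∉ Λ) : Exits Λ f x
  | step (x : V d) (hx : x ∈ Λ) (h : Exits Λ f (x + vec (f ⟨x, hx⟩))) : Exits Λ f x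

/-- The path of `f` from `x` leaves `Λ` and avoids `Q`. -/
inductive Avoids (Λ Q : Finset (V d)) (f : {x // x ∈ Λ} → Dir d) : V d → Prop
  | out (x : V d) (hx : x ∉ Λ) : Avoids Λ Q f x
  | step (x : V d) (hx : x ∈ Λ) (hQ : x ∉ Q) (h : Avoids Λ Q f (x + vec (f ⟨x, hx⟩))) :
      Avoids Λ Q f x

lemma exits_of_forest {Λ : Finset (V d)} {f : {x // x ∈ Λ} → Dir d} (hf : IsForest Λ f)
    (x : V d) : Exits Λ f x := by
  by_cases hx : x ∈ Λ
  · let r : {x // x ∈ Λ} → {x // x ∈ Λ} → Prop := fun y x => Relation.TransGen (Edge Λ f) x.1 y.1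
    have : IsTrans _ r := ⟨fun a b c hab hbc => Relation.TransGen.trans hbc hab⟩
    have : Std.Irrefl r := ⟨fun a ha => hf _ ha⟩
    have hwf : WellFounded r := Finite.wellFounded_of_trans_of_irrefl r
    have key : ∀ y : {x // x ∈ Λ}, Exits Λ f y.1 := by
      intro y
      induction y using hwf.induction with
      | _ y ih =>
        refine Exits.step y.1 y.2 ?_
        by_cases hn : y.1 + vec (f ⟨y.1, y.2⟩) ∈ Λ
        · exact ih ⟨_, hn⟩ (Relation.TransGen.single ⟨y.2, rfl⟩)
        · exact Exits.out _ hn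
    exact key ⟨x, hx⟩
  · exact Exits.out x hx

lemma forest_of_exits {Λ : Finset (V d)} {f : {x // x ∈ Λ} → Dir d}
    (h : ∀ x, Exits Λ f x) : IsForest Λ f := by
  intro x
  induction h x with
  | out x hx =>
    intro hT
    obtain ⟨b, ⟨hb, _⟩, _⟩ := Relation.TransGen.head'_iff.1 hT
    exact hx hb
  | step x hx _ ih =>
    intro hT
    obtain ⟨b, ⟨hb, hb'⟩, hbx⟩ := Relation.TransGen.head'_iff.1 hT
    apply ih
    rw [hb'] at hbx
    exact Relation.TransGen.tail' hbx ⟨hx, rfl⟩

lemma avoids_notMem {Λ Q : Finset (V d)} (hQ : Q ⊆ Λ) {f : {x // x ∈ Λ} → Dir d} {x : V d}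
    (h : Avoids Λ Q f x) : x ∉ Q := by
  cases h with
  | out _ hx => exact fun h => hx (hQ h)
  | step _ hx hq h => exact hq

lemma exits_of_avoids {Λ Q : Finset (V d)} {f f' : {x // x ∈ Λ} → Dir d}
    (hff : ∀ (x : V d) (hx : x ∈ Λ), x ∉ Q → f' ⟨x, hx⟩ = f ⟨x, hx⟩) {x : V d}
    (h : Avoids Λ Q f x) : Exits Λ f' x := by
  induction h with
  | out x hx => exact Exits.out x hx
  | step x hx hq _ ih =>
    refine Exits.step x hx ?_
    rw [hff x hx hq]
    exact ih

lemma last_visit {Λ Q : Finset (V d)} (hQ : Q ⊆ Λ) {f : {x // x ∈ Λ} → Dir d} {x : V d}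
    (h : Exits Λ f x) :
    Avoids Λ Q f x ∨ ∃ (q : V d) (hq : q ∈ Q), Avoids Λ Q f (q + vec (f ⟨q, hQ hq⟩)) := by
  induction h with
  | out x hx => exact Or.inl (Avoids.out x hx)
  | step x hx _ ih =>
    rcases ih with ih | ih
    · by_cases hq : x ∈ Q
      · exact Or.inr ⟨x, hq, ih⟩
      · exact Or.inl (Avoids.step x hx hq ih)
    · exact Or.inr ih

/-! ### Ranks in a connected set -/

/-- Adjacency inside `C`. -/
def CAdj (C : Finset (V d)) (x y : V d) : Prop := x ∈ C ∧ y ∈ C ∧ ∃ e : Dir d, y = x + vec e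

lemma CAdj_symm (C : Finset (V d)) {x y : V d} (h : CAdj C x y) : CAdj C y x := by
  obtain ⟨hx, hy, e, he⟩ := h
  exact ⟨hy, hx, opp e, by rw [he, vec_opp]; abel⟩

lemma exists_rank (C : Finset (V d)) (q : V d)
    (hconn : ∀ x ∈ C, Relation.ReflTransGen (CAdj C) x q) :
    ∃ r : V d → ℕ, ∀ x ∈ C, x ≠ q → ∃ e : Dir d, x + vec e ∈ C ∧ r (x + vec e) < r x := by
  classical
  let P : ℕ → V d → Prop := fun n => Nat.rec (fun x => x = q)
    (fun _ R x => ∃ e : Dir d, x + vec e ∈ C ∧ R (x + vec e)) n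
  have hP0 : ∀ x, P 0 x ↔ x = q := fun x => Iff.rfl
  have hPs : ∀ n x, P (n + 1) x ↔ ∃ e : Dir d, x + vec e ∈ C ∧ P n (x + vec e) :=
    fun n x => Iff.rfl
  have hex : ∀ x ∈ C, ∃ n, P n x := by
    intro x hx
    have := hconn x hx
    induction this using Relation.ReflTransGen.head_induction_on with
    | refl => exact ⟨0, rfl⟩
    | head h _ ih =>
      obtain ⟨_, hy, e, he⟩ := h
      obtain ⟨n, hn⟩ := ih hy
      exact ⟨n + 1, e, by rw [← he]; exact hy, by rw [← he]; exact hn⟩
  refine ⟨fun x => sInf {n | P n x}, ?_⟩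
  intro x hx hxq
  have h1 : {n | P n x}.Nonempty := hex x hx
  have h2 : P (sInf {n | P n x}) x := Nat.sInf_mem h1
  rcases Nat.eq_zero_or_pos (sInf {n | P n x}) with h0 | hpos
  · rw [h0] at h2
    exact absurd h2 hxq
  · obtain ⟨m, hm⟩ : ∃ m, sInf {n | P n x} = m + 1 := ⟨sInf {n | P n x} - 1, by omega⟩
    rw [hm] at h2
    obtain ⟨e, he, hPe⟩ := h2
    refine ⟨e, he, ?_⟩
    have h3 : sInf {n | P n (x + vec e)} ≤ m := Nat.sInf_le hPe
    change sInf {n | P n (x + vec e)} < sInf {n | P n x}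
    omega

/-- The modification of a forest making `x0` a leaf. -/
lemma modify {Λ : Finset (V d)} (C : Finset (V d)) (x0 : V d) (hx0 : x0 ∉ C)
    (hN : ∀ e : Dir d, x0 + vec e ∈ C) (hQ : insert x0 C ⊆ Λ) (e0 : Dir d)
    (hconn : ∀ x ∈ C, ∀ y ∈ C, Relation.ReflTransGen (CAdj C) x y)
    (f : {x // x ∈ Λ} → Dir d) (hf : IsForest Λ f) :
    ∃ f' : {x // x ∈ Λ} → Dir d, IsForest Λ f' ∧
      (∀ (x : V d) (hx : x ∈ Λ), x ∉ insert x0 C → f' ⟨x, hx⟩ = f ⟨x, hx⟩) ∧
      ∀ (x : V d) (hx : x ∈ Λ), x + vec (f' ⟨x, hx⟩) ≠ x0 := by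
  classical
  set Q := insert x0 C with hQdef
  have hx0Q : x0 ∈ Q := Finset.mem_insert_self _ _
  have hCQ : C ⊆ Q := Finset.subset_insert _ _
  have hex := exits_of_forest hf
  obtain ⟨q, hq, hav⟩ : ∃ (q : V d) (hq : q ∈ Q), Avoids Λ Q f (q + vec (f ⟨q, hQ hq⟩)) := by
    rcases last_visit hQ (hex x0) with h | h
    · exact absurd hx0Q (avoids_notMem hQ h)
    · exact h
  have hqx0 : q ≠ x0 := by
    rintro rfl
    exact avoids_notMem hQ hav (hCQ (hN _))
  have hqC : q ∈ C := (Finset.mem_insert.1 hq).resolve_left hqx0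
  obtain ⟨r, hr⟩ := exists_rank C q (fun x hx => hconn x hx q hqC)
  have hne : Nonempty (Dir d) := ⟨e0⟩
  choose! par hpar1 hpar2 using hr
  set f' : {x // x ∈ Λ} → Dir d := fun x =>
    if x.1 ∈ C ∧ x.1 ≠ q then par x.1 else if x.1 = x0 then e0 else f x with hf'
  have h1 : ∀ (x : V d) (hx : x ∈ Λ), x ∉ Q → f' ⟨x, hx⟩ = f ⟨x, hx⟩ := by
    intro x hx hxQ
    have hxC : x ∉ C := fun h => hxQ (hCQ h)
    have hxx : x ≠ x0 := by rintro rfl; exact hxQ hx0Q
    simp [hf', hxC, hxx]
  have h2 : f' ⟨q, hQ hq⟩ = f ⟨q, hQ hq⟩ := by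
    simp [hf', hqx0]
  have h3 : ∀ (x : V d) (hx : x ∈ C), x ≠ q → f' ⟨x, hQ (hCQ hx)⟩ = par x := by
    intro x hx hxq
    simp [hf', hx, hxq]
  have h4 : f' ⟨x0, hQ hx0Q⟩ = e0 := by
    simp [hf', hx0]
  -- everything exits
  have hxq : Exits Λ f' q := by
    refine Exits.step q (hQ hq) ?_
    rw [h2]
    exact exits_of_avoids h1 hav
  have hxC : ∀ n : ℕ, ∀ x ∈ C, r x = n → Exits Λ f' x := by
    intro n
    induction n using Nat.strong_induction_on with
    | _ n ih =>
      intro x hx hrx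
      by_cases hxq' : x = q
      · rw [hxq']; exact hxq
      · refine Exits.step x (hQ (hCQ hx)) ?_
        rw [h3 x hx hxq']
        exact ih (r (x + vec (par x))) (by rw [← hrx]; exact hpar2 x hx hxq') _
          (hpar1 x hx hxq') rfl
  have hxx0 : Exits Λ f' x0 := by
    refine Exits.step x0 (hQ hx0Q) ?_
    exact hxC _ _ (hN _) rfl
  have hall : ∀ x, Exits Λ f' x := by
    intro x
    induction hex x with
    | out x hx => exact Exits.out x hx
    | step x hx _ ih =>
      by_cases hxQ : x ∈ Q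
      · rcases Finset.mem_insert.1 hxQ with h | h
        · rw [h]; exact hxx0
        · exact hxC _ _ h rfl
      · refine Exits.step x hx ?_
        rw [h1 x hx hxQ]
        exact ih
  refine ⟨f', forest_of_exits hall, h1, ?_⟩
  intro x hx hcon
  have hxN : x ∈ C := by
    have := hN (opp (f' ⟨x, hx⟩))
    rw [vec_opp, ← hcon, add_neg_cancel_right] at this
    exact this
  by_cases hxq' : x = q
  · subst hxq'
    rw [h2] at hcon
    exact avoids_notMem hQ hav (by rw [hcon]; exact hx0Q)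
  · rw [h3 x hxN hxq'] at hcon
    exact hx0 (by rw [← hcon]; exact hpar1 x hxN hxq')

/-- Changing the out-edge of a leaf of a forest. -/
lemma forest_update_leaf {Λ : Finset (V d)} (x0 : V d) (hx0 : x0 ∈ Λ)
    (f : {x // x ∈ Λ} → Dir d) (hf : IsForest Λ f)
    (hleaf : ∀ (x : V d) (hx : x ∈ Λ), x + vec (f ⟨x, hx⟩) ≠ x0) (e : Dir d) :
    IsForest Λ (Function.update f ⟨x0, hx0⟩ e) := by
  classical
  have hex := exits_of_forest hf
  have h1 : ∀ x, x ≠ x0 → Exits Λ (Function.update f ⟨x0, hx0⟩ e) x := by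
    intro x
    induction hex x with
    | out x hx => exact fun _ => Exits.out x hx
    | step x hx _ ih =>
      intro hne
      refine Exits.step x hx ?_
      rw [Function.update_of_ne (by simpa using hne)]
      exact ih (hleaf x hx)
  apply forest_of_exits
  intro x
  by_cases hx : x = x0
  · rw [hx]
    refine Exits.step x0 hx0 ?_
    rw [Function.update_self]
    refine h1 _ ?_
    intro h
    have h2 : vec e = 0 := by simpa using h
    have h3 := congrFun h2 e.1
    rcases e with ⟨i, b⟩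
    cases b <;> simp [vec] at h3
  · exact h1 x hx

end R766.Rotor
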