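import Mathlib

/-!
An absolutely summable function `h` on the lattice whose graph Laplacian takes values in
`2 d ℤ`, which vanishes at the origin and has a noninteger difference along some edge.
-/

open Filter Topology
open scoped ENNReal

namespace R766.Rotor

/-- The vertices of the lattice. -/
abbrev V (d : ℕ) := Fin d → ℤ

/-- The `2 d` directions: `(i, true)` stands for `e_i` and `(i, false)` for `- e_i`. -/
abbrev Dir (d : ℕ) := Fin d × Bool

/-- The unit vector of a direction. -/
def vec {d : ℕ} (e : Dir d) : V d := Pi.single e.1 (if e.2 then 1 else -1)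

variable {d : ℕ}

/-- The opposite direction. -/
def opp (e : Dir d) : Dir d := (e.1, !e.2)

lemma opp_opp (e : Dir d) : opp (opp e) = e := by
  simp [opp]

lemma vec_opp (e : Dir d) : vec (opp e) = - vec e := by
  rcases e with ⟨i, b⟩
  cases b
  · simp [vec, opp]
    rw [← Pi.single_neg]; simp
  · simp [vec, opp]
    rw [← Pi.single_neg]

/-- `opp` as an equivalence. -/
def oppEquiv : Dir d ≃ Dir d where
  toFun := opp
  invFun := opp
  left_inv := opp_opp
  right_inv := opp_opp

/-- The shift operator. -/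
noncomputable def Sh (v : V d) : Module.End ℝ (V d → ℝ) :=
  LinearMap.funLeft ℝ ℝ (fun x => x + v)

@[simp] lemma Sh_apply (v : V d) (f : V d → ℝ) (x : V d) : Sh v f x = f (x + v) := rfl

lemma Sh_comm (v w : V d) : Commute (Sh v) (Sh w) := by
  ext f x
  simp [Module.End.mul_apply, add_assoc, add_comm v w]

/-- The averaging operator. -/
noncomputable def T : Module.End ℝ (V d → ℝ) := (1 / (2 * d : ℝ)) • ∑ e : Dir d, Sh (vec e)

lemma T_apply (f : V d → ℝ) (x : V d) :
    T f x = (1 / (2 * d : ℝ)) * ∑ e : Dir d, f (x + vec e) := by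
  simp [T, LinearMap.sum_apply, Finset.sum_apply]

/-- The symmetric difference operator. -/
noncomputable def D (i : Fin d) : Module.End ℝ (V d → ℝ) :=
  Sh (vec (i, false)) - Sh (vec (i, true))

lemma D_apply (i : Fin d) (f : V d → ℝ) (x : V d) :
    D i f x = f (x + vec (i, false)) - f (x + vec (i, true)) := by
  simp [D]

lemma T_comm_Sh (v : V d) : Commute (T (d := d)) (Sh v) := by
  unfold T
  exact (Commute.sum_left _ _ _ (fun e _ => Sh_comm _ _)).smul_left _

lemma D_comm_Sh (i : Fin d) (v : V d) : Commute (D i) (Sh v) := by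
  unfold D
  exact (Sh_comm _ _).sub_left (Sh_comm _ _)

lemma T_comm_D (i : Fin d) : Commute (T (d := d)) (D i) := by
  unfold D
  exact (T_comm_Sh _).sub_right (T_comm_Sh _)

/-- The `ℓ¹` norm. -/
noncomputable def N (f : V d → ℝ) : ℝ≥0∞ := ∑' x, ‖f x‖ₑ

lemma N_add (f g : V d → ℝ) : N (f + g) ≤ N f + N g := by
  unfold N
  rw [← ENNReal.tsum_add]
  exact ENNReal.tsum_le_tsum (fun x => enorm_add_le _ _)

lemma N_smul (c : ℝ) (f : V d → ℝ) : N (c • f) = ‖c‖ₑ * N f := by
  unfold N
  rw [← ENNReal.tsum_mul_left]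
  refine tsum_congr (fun x => ?_)
  rw [Pi.smul_apply, smul_eq_mul, enorm_mul]

lemma N_zero : N (0 : V d → ℝ) = 0 := by
  simp [N]

lemma N_sum {ι : Type*} (s : Finset ι) (f : ι → V d → ℝ) :
    N (∑ i ∈ s, f i) ≤ ∑ i ∈ s, N (f i) := by
  classical
  induction s using Finset.induction_on with
  | empty => simp [N_zero]
  | insert a s ha ih =>
    rw [Finset.sum_insert ha, Finset.sum_insert ha]
    exact (N_add _ _).trans (by gcongr)

lemma N_Sh (v : V d) (f : V d → ℝ) : N (Sh v f) = N f := by
  unfold N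
  exact (Equiv.addRight v).tsum_eq (fun x => ‖f x‖ₑ)

lemma N_T (f : V d → ℝ) : N (T f) ≤ N f := by
  by_cases hd : d = 0
  · subst hd
    simp [T, N_zero]
  have hd' : (0 : ℝ) < 2 * d := by positivity
  have h1 : T f = (1 / (2 * d : ℝ)) • ∑ e : Dir d, Sh (vec e) f := by
    simp [T, LinearMap.sum_apply]
  rw [h1, N_smul]
  calc ‖(1 / (2 * d : ℝ))‖ₑ * N (∑ e : Dir d, Sh (vec e) f)
      ≤ ‖(1 / (2 * d : ℝ))‖ₑ * ∑ e : Dir d, N f := by
        gcongr
        exact (N_sum _ _).trans (Finset.sum_le_sum (fun e _ => (N_Sh _ _).le))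
    _ = N f := by
        rw [Finset.sum_const, nsmul_eq_mul, ← mul_assoc]
        have h2 : ‖(1 / (2 * d : ℝ))‖ₑ * ((Finset.univ : Finset (Dir d)).card : ℝ≥0∞) = 1 := by
          rw [Real.enorm_eq_ofReal (by positivity)]
          have h3 : ((Finset.univ : Finset (Dir d)).card : ℝ≥0∞) = ENNReal.ofReal (2 * d) := by
            rw [show ((Finset.univ : Finset (Dir d)).card) = 2 * d by
              simp [mul_comm]]
            rw [show (2 * (d : ℝ)) = ((2 * d : ℕ) : ℝ) by push_cast; ring, ENNReal.ofReal_natCast]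
          rw [h3, ← ENNReal.ofReal_mul (by positivity)]
          rw [one_div, inv_mul_cancel₀ hd'.ne', ENNReal.ofReal_one]
        rw [h2, one_mul]

lemma N_T_pow (n : ℕ) (f : V d → ℝ) : N ((T ^ n) f) ≤ N f := by
  induction n with
  | zero => simp
  | succ n ih =>
    rw [pow_succ', Module.End.mul_apply]
    exact (N_T _).trans ih

/-- Finite support. -/
def FS (f : V d → ℝ) : Prop := (Function.support f).Finite

lemma FS_Sh (v : V d) {f : V d → ℝ} (hf : FS f) : FS (Sh v f) := by
  have : Function.support (Sh v f) = (fun x => x + v) ⁻¹' (Function.support f) := by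
    ext x; simp
  unfold FS
  rw [this]
  exact Set.Finite.preimage (add_left_injective v).injOn hf

lemma FS_add {f g : V d → ℝ} (hf : FS f) (hg : FS g) : FS (f + g) :=
  (hf.union hg).subset (Function.support_add _ _)

lemma FS_sub {f g : V d → ℝ} (hf : FS f) (hg : FS g) : FS (f - g) :=
  (hf.union hg).subset (Function.support_sub _ _)

lemma FS_smul (c : ℝ) {f : V d → ℝ} (hf : FS f) : FS (c • f) :=
  hf.subset (Function.support_const_smul_subset _ _)

lemma FS_sum {ι : Type*} (s : Finset ι) (f : ι → V d → ℝ) (hf : ∀ i ∈ s, FS (f i)) :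
    FS (∑ i ∈ s, f i) := by
  classical
  induction s using Finset.induction_on with
  | empty => simp [FS]
  | insert a s ha ih =>
    rw [Finset.sum_insert ha]
    exact FS_add (hf _ (Finset.mem_insert_self _ _))
      (ih (fun i hi => hf i (Finset.mem_insert_of_mem hi)))

lemma FS_T {f : V d → ℝ} (hf : FS f) : FS (T f) := by
  have h1 : T f = (1 / (2 * d : ℝ)) • ∑ e : Dir d, Sh (vec e) f := by
    simp [T, LinearMap.sum_apply]
  rw [h1]
  exact FS_smul _ (FS_sum _ _ (fun e _ => FS_Sh _ hf))

lemma FS_D (i : Fin d) {f : V d → ℝ} (hf : FS f) : FS (D i f) := by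
  have h1 : D i f = Sh (vec (i, false)) f - Sh (vec (i, true)) f := by
    simp [D]
  rw [h1]
  exact FS_sub (FS_Sh _ hf) (FS_Sh _ hf)

lemma FS_T_pow (n : ℕ) {f : V d → ℝ} (hf : FS f) : FS ((T ^ n) f) := by
  induction n with
  | zero => simpa using hf
  | succ n ih =>
    rw [pow_succ', Module.End.mul_apply]
    exact FS_T ih

/-- The point mass at the origin. -/
noncomputable def δ : V d → ℝ := Pi.single 0 1

lemma FS_δ : FS (δ : V d → ℝ) := by
  classical
  refine (Set.finite_singleton (0 : V d)).subset ?_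
  intro x hx
  by_contra hne
  exact hx (Pi.single_eq_of_ne hne _)

lemma N_δ : N (δ : V d → ℝ) = 1 := by
  classical
  unfold N
  rw [tsum_eq_single (0 : V d)]
  · simp [δ]
  · intro x hx
    simp [δ, hx]

lemma kernel_bound (K : Module.End ℝ (V d → ℝ)) (hK : ∀ v, Commute K (Sh v))
    (f : V d → ℝ) (hf : FS f) : N (K f) ≤ N (K δ) * N f := by
  classical
  have h1 : f = ∑ y ∈ hf.toFinset, f y • Sh (-y) δ := by
    ext x
    rw [Finset.sum_apply]
    by_cases hx : f x = 0
    · rw [hx]
      symm
      refine Finset.sum_eq_zero (fun y hy => ?_)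
      have hy' : f y ≠ 0 := by simpa using hy
      have hne : x + -y ≠ 0 := by
        intro h
        have : x = y := by
          have := add_neg_eq_zero.1 h
          exact this
        exact hy' (this ▸ hx)
      simp [δ, hne]
    · rw [Finset.sum_eq_single x]
      · simp [δ]
      · intro y _ hyx
        have hne : x + -y ≠ 0 := by
          intro h
          exact hyx (add_neg_eq_zero.1 h).symm
        simp [δ, hne]
      · intro h
        exact absurd (by simpa using hx) h
  have h2 : K f = ∑ y ∈ hf.toFinset, f y • Sh (-y) (K δ) := by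
    conv_lhs => rw [h1]
    rw [map_sum]
    refine Finset.sum_congr rfl (fun y _ => ?_)
    rw [map_smul]
    congr 1
    have := (hK (-y)).eq
    exact congrArg (fun L : Module.End ℝ (V d → ℝ) => L δ) this
  calc N (K f) = N (∑ y ∈ hf.toFinset, f y • Sh (-y) (K δ)) := by rw [← h2]
    _ ≤ ∑ y ∈ hf.toFinset, N (f y • Sh (-y) (K δ)) := N_sum _ _
    _ = ∑ y ∈ hf.toFinset, ‖f y‖ₑ * N (K δ) := by
        refine Finset.sum_congr rfl (fun y _ => ?_)
        rw [N_smul, N_Sh]
    _ = (∑ y ∈ hf.toFinset, ‖f y‖ₑ) * N (K δ) := by rw [Finset.sum_mul]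
    _ ≤ N f * N (K δ) := by
        gcongr
        exact ENNReal.sum_le_tsum _
    _ = N (K δ) * N f := mul_comm _ _

lemma FS_pow (K : Module.End ℝ (V d → ℝ)) (hF : ∀ f, FS f → FS (K f)) (k : ℕ)
    {f : V d → ℝ} (hf : FS f) : FS ((K ^ k) f) := by
  induction k with
  | zero => simpa using hf
  | succ k ih =>
    rw [pow_succ', Module.End.mul_apply]
    exact hF _ ih

lemma kernel_pow (K : Module.End ℝ (V d → ℝ)) (hK : ∀ v, Commute K (Sh v))
    (hF : ∀ f, FS f → FS (K f)) (k : ℕ) : N ((K ^ k) δ) ≤ N (K δ) ^ k := by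
  induction k with
  | zero => simp [N_δ]
  | succ k ih =>
    rw [pow_succ', Module.End.mul_apply, pow_succ']
    refine (kernel_bound K hK _ (FS_pow K hF k FS_δ)).trans ?_
    gcongr

end R766.Rotor
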