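import Pool.Agent.R766.Rotor.Forest

/-!
Local randomness of the oriented wired uniform spanning forest.
-/

open MeasureTheory Filter Topology

namespace R766.Rotor

variable {d : ℕ}

lemma vec_ne_zero (e : Dir d) : vec e ≠ 0 := by
  intro h2
  have h3 := congrFun h2 e.1
  rcases e with ⟨i, b⟩
  cases b <;> simp [vec] at h3

lemma vec_inj {e e' : Dir d} (h : vec e = vec e') : e = e' := by
  rcases e with ⟨i, b⟩
  rcases e' with ⟨j, b'⟩
  have h1 := congrFun h i
  by_cases hij : i = j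
  · subst hij
    cases b <;> cases b' <;> simp [vec] at h1 ⊢
  · exfalso
    cases b <;> cases b' <;> simp [vec, hij] at h1

lemma vec_add_ne_zero {e e' : Dir d} (h : e' ≠ opp e) : vec e + vec e' ≠ 0 := by
  intro h1
  apply h
  apply vec_inj
  rw [vec_opp]
  exact (neg_eq_of_add_eq_zero_right h1).symm

open Classical in
/-- The points at distance one or two from `x0`. -/
noncomputable def Cset (x0 : V d) : Finset (V d) :=
  ((Finset.univ.image (fun p : Dir d × Dir d => x0 + vec p.1 + vec p.2)) ∪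
    (Finset.univ.image (fun e : Dir d => x0 + vec e))).erase x0

lemma notMem_Cset (x0 : V d) : x0 ∉ Cset x0 := by
  classical
  simp [Cset]

lemma nbr_mem_Cset (x0 : V d) (e : Dir d) : x0 + vec e ∈ Cset x0 := by
  classical
  unfold Cset
  rw [Finset.mem_erase]
  refine ⟨by simpa using vec_ne_zero e, Finset.mem_union_right _ ?_⟩
  exact Finset.mem_image_of_mem _ (Finset.mem_univ e)

lemma nbr2_mem_Cset (x0 : V d) {e e' : Dir d} (h : e' ≠ opp e) :
    x0 + vec e + vec e' ∈ Cset x0 := by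
  classical
  unfold Cset
  rw [Finset.mem_erase]
  refine ⟨?_, Finset.mem_union_left _ ?_⟩
  · rw [add_assoc]
    intro h1
    exact vec_add_ne_zero h (by simpa using h1)
  · exact Finset.mem_image_of_mem (fun p : Dir d × Dir d => x0 + vec p.1 + vec p.2)
      (Finset.mem_univ (e, e'))

lemma conn_nbr_aux (x0 : V d) {e e' : Dir d} (h : e' ≠ opp e) :
    Relation.ReflTransGen (CAdj (Cset x0)) (x0 + vec e) (x0 + vec e') := by
  refine Relation.ReflTransGen.trans (b := x0 + vec e + vec e') ?_ ?_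
  · exact Relation.ReflTransGen.single ⟨nbr_mem_Cset _ _, nbr2_mem_Cset _ h, e', rfl⟩
  · refine Relation.ReflTransGen.single ⟨nbr2_mem_Cset _ h, nbr_mem_Cset _ _, opp e, ?_⟩
    rw [vec_opp]; abel

lemma conn_nbr (hd : 2 ≤ d) (x0 : V d) (e e' : Dir d) :
    Relation.ReflTransGen (CAdj (Cset x0)) (x0 + vec e) (x0 + vec e') := by
  by_cases h : e' = opp e
  · obtain ⟨i, hi⟩ : ∃ i : Fin d, i ≠ e.1 := by
      by_cases h0 : e.1 = ⟨0, by omega⟩
      · exact ⟨⟨1, by omega⟩, by rw [h0]; simp [Fin.ext_iff]⟩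
      · exact ⟨⟨0, by omega⟩, fun h => h0 h.symm⟩
    have h1 : ((i, true) : Dir d) ≠ opp e := by
      intro h2
      exact hi (congrArg Prod.fst h2)
    have h2 : e' ≠ opp ((i, true) : Dir d) := by
      intro h3
      rw [h] at h3
      exact hi (congrArg Prod.fst h3).symm
    exact (conn_nbr_aux x0 h1).trans (conn_nbr_aux x0 h2)
  · exact conn_nbr_aux x0 h

lemma conn_to_nbr (x0 x : V d) (hx : x ∈ Cset x0) :
    ∃ e : Dir d, Relation.ReflTransGen (CAdj (Cset x0)) x (x0 + vec e) := by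
  classical
  have hx' := hx
  unfold Cset at hx'
  rw [Finset.mem_erase, Finset.mem_union] at hx'
  obtain ⟨_, h | h⟩ := hx'
  · obtain ⟨⟨e, e'⟩, _, rfl⟩ := Finset.mem_image.1 h
    refine ⟨e, Relation.ReflTransGen.single ⟨hx, nbr_mem_Cset _ _, opp e', ?_⟩⟩
    rw [vec_opp]; abel
  · obtain ⟨e, _, rfl⟩ := Finset.mem_image.1 h
    exact ⟨e, Relation.ReflTransGen.refl⟩

lemma conn_Cset (hd : 2 ≤ d) (x0 : V d) :
    ∀ x ∈ Cset x0, ∀ y ∈ Cset x0, Relation.ReflTransGen (CAdj (Cset x0)) x y := by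
  intro x hx y hy
  obtain ⟨e, he⟩ := conn_to_nbr x0 x hx
  obtain ⟨e', he'⟩ := conn_to_nbr x0 y hy
  have hsymm : Std.Symm (CAdj (Cset x0)) := ⟨fun a b h => CAdj_symm _ h⟩
  have h3 : Relation.ReflTransGen (CAdj (Cset x0)) (x0 + vec e') y :=
    Relation.ReflTransGen.stdSymm.symm _ _ he'
  exact (he.trans (conn_nbr hd x0 e e')).trans h3

/-- No edge points to `x0`. -/
def Leaf (Λ : Finset (V d)) (x0 : V d) (f : {x // x ∈ Λ} → Dir d) : Prop :=
  ∀ (x : V d) (hx : x ∈ Λ), x + vec (f ⟨x, hx⟩) ≠ x0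

open Classical in
/-- The forests in which `x0` is a leaf. -/
noncomputable def leafForests (Λ : Finset (V d)) (x0 : V d) :
    Finset ({x // x ∈ Λ} → Dir d) := (forests Λ).filter (Leaf Λ x0)

lemma mem_forests {Λ : Finset (V d)} {f : {x // x ∈ Λ} → Dir d} :
    f ∈ forests Λ ↔ IsForest Λ f := by
  classical
  simp [forests]

lemma card_forests_le (hd : 2 ≤ d) {Λ : Finset (V d)} (x0 : V d)
    (hQ : insert x0 (Cset x0) ⊆ Λ) :
    (forests Λ).card ≤ (leafForests Λ x0).card *
      Fintype.card ({x // x ∈ insert x0 (Cset x0)} → Dir d) := by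
  classical
  set Q := insert x0 (Cset x0) with hQdef
  have hmod := fun (f : {x // x ∈ Λ} → Dir d) (hf : f ∈ forests Λ) =>
    modify (Cset x0) x0 (notMem_Cset x0) (nbr_mem_Cset x0) hQ
      ((⟨0, by omega⟩, true) : Dir d) (conn_Cset hd x0) f (mem_forests.1 hf)
  have hne : Nonempty ({x // x ∈ Λ} → Dir d) := ⟨fun _ => (⟨0, by omega⟩, true)⟩
  choose! M hM1 hM2 hM3 using hmod
  have h1 := Finset.card_le_card_of_injOn (s := forests Λ)
    (t := leafForests Λ x0 ×ˢ (Finset.univ : Finset ({x // x ∈ Q} → Dir d)))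
    (fun f => (M f, fun q : {x // x ∈ Q} => f ⟨q.1, hQ q.2⟩)) ?_ ?_
  · rw [Finset.card_product, Finset.card_univ] at h1
    exact h1
  · intro f hf
    have hf' : f ∈ forests Λ := hf
    simp only [Finset.coe_product, Finset.coe_univ, Set.mem_prod, Finset.mem_coe, Set.mem_univ,
      and_true]
    unfold leafForests
    rw [Finset.mem_filter]
    exact ⟨mem_forests.2 (hM1 f hf'), hM3 f hf'⟩
  · intro f hf g hg hfg
    have hf' : f ∈ forests Λ := hf
    have hg' : g ∈ forests Λ := hg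
    simp only [Prod.mk.injEq] at hfg
    obtain ⟨hfg1, hfg2⟩ := hfg
    funext ⟨x, hx⟩
    by_cases hxQ : x ∈ Q
    · exact congrFun hfg2 ⟨x, hxQ⟩
    · rw [← hM2 f hf' x hx hxQ, ← hM2 g hg' x hx hxQ, hfg1]

lemma forests_nonempty (hd : 0 < d) (Λ : Finset (V d)) : (forests Λ).Nonempty := by
  classical
  set i : Fin d := ⟨0, hd⟩
  refine ⟨fun _ => (i, true), mem_forests.2 ?_⟩
  have key : ∀ x y, Relation.TransGen (Edge Λ (fun _ => ((i, true) : Dir d))) x y → x i < y i := by
    intro x y h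
    induction h with
    | single h =>
      obtain ⟨_, rfl⟩ := h
      simp [vec]
    | tail _ h ih =>
      obtain ⟨_, rfl⟩ := h
      refine ih.trans ?_
      simp [vec]
  intro x hx
  exact lt_irrefl _ (key x x hx)

/-- The oriented edges of a pattern. -/
noncomputable def graph {S : Finset (V d)} (p : {x // x ∈ S} → Dir d) :
    Finset (V d × Dir d) := by
  classical
  exact S.attach.image (fun y => (y.1, p y))

lemma forall_graph {S : Finset (V d)} (p : {x // x ∈ S} → Dir d) (R : V d → Dir d → Prop) :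
    (∀ b ∈ graph p, R b.1 b.2) ↔ ∀ y : {x // x ∈ S}, R y.1 (p y) := by
  classical
  unfold graph
  constructor
  · intro h y
    exact h (y.1, p y) (Finset.mem_image_of_mem _ (Finset.mem_attach _ _))
  · intro h b hb
    obtain ⟨y, _, rfl⟩ := Finset.mem_image.1 hb
    exact h y

open Classical in
/-- The number of forests with a given pattern. -/
noncomputable def cnt (Λ : Finset (V d)) {S : Finset (V d)} (p : {x // x ∈ S} → Dir d) : ℕ :=
  ((forests Λ).filter (fun f => ∀ b ∈ graph p, ∃ hx : b.1 ∈ Λ, f ⟨b.1, hx⟩ = b.2)).card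

lemma forestProb_graph (Λ : Finset (V d)) {S : Finset (V d)} (p : {x // x ∈ S} → Dir d) :
    forestProb Λ (graph p) = (cnt Λ p : ℝ) / ((forests Λ).card : ℝ) := rfl

lemma cond_iff {Λ S : Finset (V d)} (hS : S ⊆ Λ) (p : {x // x ∈ S} → Dir d)
    (f : {x // x ∈ Λ} → Dir d) :
    (∀ b ∈ graph p, ∃ hx : b.1 ∈ Λ, f ⟨b.1, hx⟩ = b.2)
      ↔ ∀ y : {x // x ∈ S}, f ⟨y.1, hS y.2⟩ = p y := by
  rw [forall_graph p (fun x e => ∃ hx : x ∈ Λ, f ⟨x, hx⟩ = e)]
  constructor
  · intro h y
    obtain ⟨_, h1⟩ := h y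
    exact h1
  · intro h y
    exact ⟨hS y.2, h y⟩

lemma leaf_le_sum {Λ S : Finset (V d)} (hS : S ⊆ Λ) (x0 : V d) :
    ∀ (LP : Finset ({x // x ∈ S} → Dir d)),
      (∀ p, p ∈ LP ↔ ∀ y : {x // x ∈ S}, y.1 + vec (p y) ≠ x0) →
      (leafForests Λ x0).card ≤ ∑ p ∈ LP, cnt Λ p := by
  classical
  intro LP hLP
  have h1 := Finset.card_eq_sum_card_fiberwise (s := leafForests Λ x0) (t := LP)
    (f := fun f : {x // x ∈ Λ} → Dir d => fun y : {x // x ∈ S} => f ⟨y.1, hS y.2⟩) ?_
  · rw [h1]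
    refine Finset.sum_le_sum (fun p _ => ?_)
    unfold cnt
    refine Finset.card_le_card ?_
    intro f hf
    rw [Finset.mem_filter] at hf ⊢
    obtain ⟨hf1, hf2⟩ := hf
    unfold leafForests at hf1
    rw [Finset.mem_filter] at hf1
    refine ⟨hf1.1, (cond_iff hS p f).2 (fun y => ?_)⟩
    rw [← hf2]
  · intro f hf
    have hf' : f ∈ leafForests Λ x0 := hf
    unfold leafForests at hf'
    rw [Finset.mem_filter] at hf'
    change _ ∈ LP
    rw [hLP]
    intro y
    exact hf'.2 y.1 (hS y.2)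

lemma cnt_le_update {Λ S : Finset (V d)} (hS : S ⊆ Λ) (x0 : V d) (hx0 : x0 ∈ S)
    (hN : ∀ e : Dir d, x0 + vec e ∈ S) (p : {x // x ∈ S} → Dir d)
    (hp : ∀ y : {x // x ∈ S}, y.1 + vec (p y) ≠ x0) (e : Dir d) :
    cnt Λ p ≤ cnt Λ (Function.update p ⟨x0, hx0⟩ e) := by
  classical
  unfold cnt
  refine Finset.card_le_card_of_injOn (fun f => Function.update f ⟨x0, hS hx0⟩ e) ?_ ?_
  · intro f hf
    have hf' := Finset.mem_coe.1 hf
    rw [Finset.mem_filter, mem_forests, cond_iff hS] at hf'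
    obtain ⟨hf1, hf2⟩ := hf'
    simp only [Finset.coe_filter, Set.mem_ofPred_eq]
    rw [mem_forests, cond_iff hS]
    have hleaf : ∀ (x : V d) (hx : x ∈ Λ), x + vec (f ⟨x, hx⟩) ≠ x0 := by
      intro x hx hcon
      have hxN : x ∈ S := by
        have := hN (opp (f ⟨x, hx⟩))
        rw [vec_opp, ← hcon, add_neg_cancel_right] at this
        exact this
      apply hp ⟨x, hxN⟩
      rw [← hf2 ⟨x, hxN⟩]
      exact hcon
    refine ⟨forest_update_leaf x0 (hS hx0) f hf1 hleaf e, ?_⟩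
    intro y
    by_cases hy : y = ⟨x0, hx0⟩
    · subst hy
      simp
    · have hy' : (⟨y.1, hS y.2⟩ : {x // x ∈ Λ}) ≠ ⟨x0, hS hx0⟩ := by
        intro h
        apply hy
        apply Subtype.ext
        have h7 : y.1 = x0 := congrArg Subtype.val h
        exact h7
      rw [Function.update_of_ne hy', Function.update_of_ne hy]
      exact hf2 y
  · intro f hf g hg hfg
    have hf' := Finset.mem_coe.1 hf
    have hg' := Finset.mem_coe.1 hg
    rw [Finset.mem_filter, mem_forests, cond_iff hS] at hf' hg'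
    funext x
    by_cases hx : x = ⟨x0, hS hx0⟩
    · subst hx
      rw [hf'.2 ⟨x0, hx0⟩, hg'.2 ⟨x0, hx0⟩]
    · have := congrFun hfg x
      simp only [Function.update_of_ne hx] at this
      exact this

theorem locRand_of_OWUSF (hd : 2 ≤ d) (μ : Measure (Cfg d)) (hμ : IsOWUSF μ) : LocRand μ := by
  classical
  intro S0 x0
  have hprob := hμ.prob
  obtain ⟨Λ, hmono, hexh, hlim⟩ := hμ.lim
  set Q := insert x0 (Cset x0) with hQdef
  set S := S0 ∪ Q with hSdef
  have hx0 : x0 ∈ S := Finset.mem_union_right _ (Finset.mem_insert_self _ _)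
  have hN : ∀ e : Dir d, x0 + vec e ∈ S :=
    fun e => Finset.mem_union_right _ (Finset.mem_insert_of_mem (nbr_mem_Cset x0 e))
  have hQS : Q ⊆ S := Finset.subset_union_right
  have hev : ∀ᶠ R in atTop, S ⊆ Λ R := by
    have h1 : ∀ x ∈ S, ∀ᶠ R in atTop, x ∈ Λ R := by
      intro x _
      obtain ⟨R0, hR0⟩ := hexh x
      filter_upwards [eventually_ge_atTop R0] with R hR
      exact hmono hR hR0
    have h2 : ∀ᶠ R in atTop, ∀ x ∈ S, x ∈ Λ R := by
      rw [Filter.eventually_all_finset]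
      exact h1
    exact h2
  set L : ({x // x ∈ S} → Dir d) → ℝ := fun p =>
    μ.real {ρ | ∀ b ∈ graph p, ρ b.1 = b.2} with hLdef
  have hL : ∀ p : {x // x ∈ S} → Dir d,
      Tendsto (fun R => forestProb (Λ R) (graph p)) atTop (𝓝 (L p)) := fun p => hlim (graph p)
  set K : ℕ := Fintype.card ({x // x ∈ Q} → Dir d) with hK
  set LP : Finset ({x // x ∈ S} → Dir d) :=
    Finset.univ.filter (fun p => ∀ y : {x // x ∈ S}, y.1 + vec (p y) ≠ x0) with hLP
  have hLPmem : ∀ p, p ∈ LP ↔ ∀ y : {x // x ∈ S}, y.1 + vec (p y) ≠ x0 := by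
    intro p; simp [hLP]
  have hKpos : 0 < K := by
    rw [hK]
    exact Fintype.card_pos_iff.2 ⟨fun _ => (⟨0, by omega⟩, true)⟩
  have hsum : (1 : ℝ) / K ≤ ∑ p ∈ LP, L p := by
    have h1 : Tendsto (fun R => ∑ p ∈ LP, forestProb (Λ R) (graph p)) atTop
        (𝓝 (∑ p ∈ LP, L p)) := tendsto_finsetSum _ (fun p _ => hL p)
    refine ge_of_tendsto h1 ?_
    filter_upwards [hev] with R hR
    have h2 := card_forests_le hd x0 (hQS.trans hR)
    have h3 := leaf_le_sum hR x0 LP hLPmem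
    have h4 : (0 : ℝ) < ((forests (Λ R)).card : ℝ) := by
      exact_mod_cast (forests_nonempty (by omega : 0 < d) (Λ R)).card_pos
    simp_rw [forestProb_graph]
    rw [← Finset.sum_div, div_le_div_iff₀ (by exact_mod_cast hKpos) h4, one_mul]
    have h5 : (forests (Λ R)).card ≤ (∑ p ∈ LP, cnt (Λ R) p) * K :=
      h2.trans (Nat.mul_le_mul_right _ h3)
    exact_mod_cast h5
  obtain ⟨p, hpLP, hp⟩ : ∃ p ∈ LP, 0 < L p := by
    by_contra hno
    push Not at hno
    have h1 : ∑ p ∈ LP, L p ≤ 0 := Finset.sum_nonpos hno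
    have h2 : (0 : ℝ) < 1 / K := by
      have : (0 : ℝ) < K := by exact_mod_cast hKpos
      positivity
    linarith
  have hmonoL : ∀ e : Dir d, L p ≤ L (Function.update p ⟨x0, hx0⟩ e) := by
    intro e
    refine le_of_tendsto_of_tendsto (hL p) (hL _) ?_
    filter_upwards [hev] with R hR
    rw [forestProb_graph, forestProb_graph]
    refine div_le_div_of_nonneg_right ?_ (by positivity)
    exact_mod_cast cnt_le_update hR x0 hx0 hN p ((hLPmem p).1 hpLP) e
  refine ⟨fun y => if h : y ∈ S then p ⟨y, h⟩ else (⟨0, by omega⟩, true), ?_⟩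
  intro e hzero
  have h1 : 0 < L (Function.update p ⟨x0, hx0⟩ e) := hp.trans_le (hmonoL e)
  have h2 : μ {ρ : Cfg d | ∀ b ∈ graph (Function.update p ⟨x0, hx0⟩ e), ρ b.1 = b.2} = 0 := by
    refine measure_mono_null ?_ hzero
    intro ρ hρ
    simp only [Set.mem_ofPred_eq] at hρ ⊢
    rw [forall_graph _ (fun x e => ρ x = e)] at hρ
    refine ⟨?_, ?_⟩
    · have := hρ ⟨x0, hx0⟩
      simpa using this
    · intro y hy hyx
      have hyS : y ∈ S := Finset.mem_union_left _ hy
      rw [dif_pos hyS]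
      have := hρ ⟨y, hyS⟩
      rw [Function.update_of_ne] at this
      · exact this
      · intro h
        exact hyx (congrArg Subtype.val h)
  have h3 : L (Function.update p ⟨x0, hx0⟩ e) = 0 := by
    simp only [hLdef, Measure.real, h2, ENNReal.toReal_zero]
  linarith

end R766.Rotor
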