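import Pool.Agent.R766.Rotor.Harm

/-!
Moments of the simple random walk kernel, and the `ℓ¹` gradient bound.
-/

open Filter Topology
open scoped ENNReal

namespace R766.Rotor

variable {d : ℕ}

/-- Multiplication by the `i`-th coordinate. -/
noncomputable def θ (i : Fin d) (f : V d → ℝ) : V d → ℝ := fun x => (x i : ℝ) * f x

lemma vec_apply_true (i j : Fin d) : (vec (i, true) : V d) j = if j = i then 1 else 0 := by
  simp [vec, Pi.single_apply]

lemma vec_apply_false (i j : Fin d) : (vec (i, false) : V d) j = if j = i then -1 else 0 := by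
  simp [vec, Pi.single_apply]

lemma sum_dir {M : Type*} [AddCommMonoid M] (f : Dir d → M) :
    ∑ e, f e = ∑ i : Fin d, (f (i, true) + f (i, false)) := by
  rw [Fintype.sum_prod_type]
  simp

lemma θ_T (i : Fin d) (f : V d → ℝ) :
    θ i (T f) = T (θ i f) + (1 / (2 * d : ℝ)) • D i f := by
  ext x
  simp only [θ, T_apply, Pi.add_apply, Pi.smul_apply, D_apply, smul_eq_mul]
  rw [sum_dir, sum_dir]
  have h1 : ∑ j : Fin d, (((x + vec (j, true)) i : ℤ) : ℝ) * f (x + vec (j, true))
        = ∑ j : Fin d, (x i : ℝ) * f (x + vec (j, true)) + f (x + vec (i, true)) := by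
    have : ∀ j : Fin d, (((x + vec (j, true)) i : ℤ) : ℝ) * f (x + vec (j, true))
        = (x i : ℝ) * f (x + vec (j, true)) + (if i = j then f (x + vec (j, true)) else 0) := by
      intro j
      rw [Pi.add_apply, vec_apply_true]
      split_ifs with h <;> push_cast <;> ring
    rw [Finset.sum_congr rfl (fun j _ => this j), Finset.sum_add_distrib]
    simp
  have h2 : ∑ j : Fin d, (((x + vec (j, false)) i : ℤ) : ℝ) * f (x + vec (j, false))
        = ∑ j : Fin d, (x i : ℝ) * f (x + vec (j, false)) - f (x + vec (i, false)) := by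
    have : ∀ j : Fin d, (((x + vec (j, false)) i : ℤ) : ℝ) * f (x + vec (j, false))
        = (x i : ℝ) * f (x + vec (j, false)) + (if i = j then - f (x + vec (j, false)) else 0) := by
      intro j
      rw [Pi.add_apply, vec_apply_false]
      split_ifs with h <;> push_cast <;> ring
    rw [Finset.sum_congr rfl (fun j _ => this j), Finset.sum_add_distrib]
    simp [sub_eq_add_neg]
  simp only [Pi.add_apply] at h1 h2
  rw [Finset.sum_add_distrib, Finset.sum_add_distrib, h1, h2, ← Finset.mul_sum,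
    ← Finset.mul_sum]
  ring

lemma θ_T_pow (i : Fin d) (f : V d → ℝ) (n : ℕ) :
    θ i ((T ^ (n + 1)) f) = (T ^ (n + 1)) (θ i f)
      + ((n + 1 : ℝ) / (2 * d : ℝ)) • (T ^ n) (D i f) := by
  induction n with
  | zero => simp [θ_T]
  | succ n ih =>
    rw [pow_succ' T (n + 1), Module.End.mul_apply, θ_T, ih, map_add, map_smul]
    have h1 : D i ((T ^ (n + 1)) f) = (T ^ (n + 1)) (D i f) := by
      have := ((T_comm_D i).pow_left (n + 1)).eq
      exact (congrArg (fun L : Module.End ℝ (V d → ℝ) => L f) this).symm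
    rw [h1]
    have h2 : T ((T ^ n) (D i f)) = (T ^ (n + 1)) (D i f) := by
      rw [pow_succ', Module.End.mul_apply]
    rw [h2]
    rw [add_assoc, ← add_smul, Module.End.mul_apply]
    congr 2
    push_cast
    ring

lemma θ_δ (i : Fin d) : θ i (δ : V d → ℝ) = 0 := by
  classical
  ext x
  by_cases hx : x = 0
  · subst hx; simp [θ]
  · simp [θ, δ, hx]

lemma θ_T_pow_δ (i : Fin d) (n : ℕ) :
    θ i ((T ^ (n + 1)) (δ : V d → ℝ)) = ((n + 1 : ℝ) / (2 * d : ℝ)) • (T ^ n) (D i δ) := by
  rw [θ_T_pow, θ_δ, map_zero, zero_add]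

/-- Symmetry of the averaging operator. -/
lemma T_symm (u f : V d → ℝ) (hu : ∀ x, 0 ≤ u x) (hf : ∀ x, 0 ≤ f x) :
    ∑' x, ENNReal.ofReal (u x * T f x) = ∑' x, ENNReal.ofReal (T u x * f x) := by
  set c : ℝ := 1 / (2 * d : ℝ) with hc
  have hc0 : 0 ≤ c := by positivity
  have h1 : ∀ x, ENNReal.ofReal (u x * T f x)
      = ∑ e : Dir d, ENNReal.ofReal (c * (u x * f (x + vec e))) := by
    intro x
    rw [T_apply, ← hc, ← ENNReal.ofReal_sum_of_nonneg
      (fun e _ => mul_nonneg hc0 (mul_nonneg (hu _) (hf _)))]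
    congr 1
    rw [← Finset.mul_sum, ← Finset.mul_sum]; ring
  have h2 : ∀ x, ENNReal.ofReal (T u x * f x)
      = ∑ e : Dir d, ENNReal.ofReal (c * (u (x + vec e) * f x)) := by
    intro x
    rw [T_apply, ← hc, ← ENNReal.ofReal_sum_of_nonneg
      (fun e _ => mul_nonneg hc0 (mul_nonneg (hu _) (hf _)))]
    congr 1
    rw [← Finset.mul_sum, ← Finset.sum_mul]; ring
  simp_rw [h1, h2]
  rw [Summable.tsum_finsetSum (fun _ _ => ENNReal.summable),
    Summable.tsum_finsetSum (fun _ _ => ENNReal.summable)]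
  rw [← Equiv.sum_comp oppEquiv]
  refine Finset.sum_congr rfl (fun e _ => ?_)
  have := (Equiv.addRight (vec e)).tsum_eq
    (fun x => ENNReal.ofReal (c * (u x * f (x + vec (oppEquiv e)))))
  rw [← this]
  refine tsum_congr (fun x => ?_)
  simp only [Equiv.coe_addRight]
  have h3 : x + vec e + vec (oppEquiv e) = x := by
    change x + vec e + vec (opp e) = x
    rw [vec_opp]; simp
  rw [h3]

lemma T_nonneg {f : V d → ℝ} (hf : ∀ x, 0 ≤ f x) (x : V d) : 0 ≤ T f x := by
  rw [T_apply]
  exact mul_nonneg (by positivity) (Finset.sum_nonneg (fun e _ => hf _))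

lemma p_nonneg (n : ℕ) : ∀ x, 0 ≤ (T ^ n) (δ : V d → ℝ) x := by
  classical
  induction n with
  | zero =>
    intro x
    by_cases hx : x = 0
    · subst hx; simp [δ]
    · simp [δ, hx]
  | succ n ih =>
    rw [pow_succ', Module.End.mul_apply]
    exact T_nonneg ih

lemma T_one (hd : 0 < d) (x : V d) : T (fun _ => (1 : ℝ)) x = 1 := by
  rw [T_apply]
  have : (0 : ℝ) < d := by exact_mod_cast hd
  simp
  field_simp

lemma T_sq (hd : 0 < d) (i : Fin d) (x : V d) :
    T (fun x : V d => ((x i : ℝ)) ^ 2) x = (x i : ℝ) ^ 2 + 1 / d := by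
  have hd' : (0 : ℝ) < d := by exact_mod_cast hd
  rw [T_apply, sum_dir]
  have h1 : ∀ j : Fin d, ((((x + vec (j, true)) i : ℤ) : ℝ)) ^ 2 + ((((x + vec (j, false)) i : ℤ) : ℝ)) ^ 2
      = 2 * (x i : ℝ) ^ 2 + (if i = j then 2 else 0) := by
    intro j
    rw [Pi.add_apply, Pi.add_apply, vec_apply_true, vec_apply_false]
    split_ifs with h <;> push_cast <;> ring
  rw [Finset.sum_congr rfl (fun j _ => h1 j), Finset.sum_add_distrib]
  simp
  field_simp

lemma mass (hd : 0 < d) (n : ℕ) : ∑' x, ENNReal.ofReal ((T ^ n) (δ : V d → ℝ) x) = 1 := by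
  classical
  induction n with
  | zero =>
    rw [tsum_eq_single (0 : V d)]
    · simp [δ]
    · intro x hx; simp [δ, hx]
  | succ n ih =>
    have h := T_symm (fun _ => (1 : ℝ)) ((T ^ n) (δ : V d → ℝ)) (fun _ => zero_le_one)
      (p_nonneg n)
    simp only [one_mul, T_one hd] at h
    rw [pow_succ', Module.End.mul_apply, h, ih]

lemma moment2 (hd : 0 < d) (i : Fin d) (n : ℕ) :
    ∑' x, ENNReal.ofReal ((x i : ℝ) ^ 2 * (T ^ n) (δ : V d → ℝ) x) ≤ ENNReal.ofReal n := by
  classical
  have hd' : (1 : ℝ) ≤ d := by exact_mod_cast hd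
  induction n with
  | zero =>
    rw [tsum_eq_single (0 : V d)]
    · simp
    · intro x hx; simp [δ, hx]
  | succ n ih =>
    have h := T_symm (fun x : V d => ((x i : ℝ)) ^ 2) ((T ^ n) (δ : V d → ℝ))
      (fun _ => sq_nonneg _) (p_nonneg n)
    rw [pow_succ', Module.End.mul_apply, h]
    simp only [T_sq hd i]
    calc ∑' x : V d, ENNReal.ofReal (((x i : ℝ) ^ 2 + 1 / d) * (T ^ n) δ x)
        ≤ ∑' x : V d, (ENNReal.ofReal ((x i : ℝ) ^ 2 * (T ^ n) δ x)
            + ENNReal.ofReal ((T ^ n) δ x)) := by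
          refine ENNReal.tsum_le_tsum (fun x => ?_)
          rw [← ENNReal.ofReal_add (mul_nonneg (sq_nonneg _) (p_nonneg n x)) (p_nonneg n x)]
          refine ENNReal.ofReal_le_ofReal ?_
          have h1 : (1 : ℝ) / d ≤ 1 := by
            rw [div_le_one (by linarith)]; exact hd'
          have h2 := mul_le_mul_of_nonneg_right h1 (p_nonneg n x)
          linarith
      _ = ∑' x : V d, ENNReal.ofReal ((x i : ℝ) ^ 2 * (T ^ n) δ x) + 1 := by
          rw [ENNReal.tsum_add, mass hd n]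
      _ ≤ ENNReal.ofReal n + 1 := by gcongr
      _ = ENNReal.ofReal ((n + 1 : ℕ)) := by
          push_cast
          rw [ENNReal.ofReal_add (by positivity) zero_le_one, ENNReal.ofReal_one]

lemma N_θ (hd : 0 < d) (i : Fin d) (n : ℕ) :
    N (θ i ((T ^ (n + 1)) (δ : V d → ℝ))) ≤ ENNReal.ofReal (Real.sqrt (n + 1)) := by
  set s : ℝ := Real.sqrt (n + 1) with hs
  have hs0 : 0 < s := Real.sqrt_pos.2 (by positivity)
  have hs2 : s * s = n + 1 := Real.mul_self_sqrt (by positivity)
  set p : V d → ℝ := (T ^ (n + 1)) (δ : V d → ℝ) with hp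
  have hp0 : ∀ x, 0 ≤ p x := p_nonneg (n + 1)
  calc N (θ i p) ≤ ∑' x : V d, (ENNReal.ofReal (1 / (2 * s)) * ENNReal.ofReal ((x i : ℝ) ^ 2 * p x)
          + ENNReal.ofReal (s / 2) * ENNReal.ofReal (p x)) := by
        unfold N
        refine ENNReal.tsum_le_tsum (fun x => ?_)
        rw [← ENNReal.ofReal_mul (by positivity), ← ENNReal.ofReal_mul (by positivity),
          ← ENNReal.ofReal_add (mul_nonneg (by positivity) (mul_nonneg (sq_nonneg _) (hp0 x)))
            (mul_nonneg (by positivity) (hp0 x)), Real.enorm_eq_ofReal_abs]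
        refine ENNReal.ofReal_le_ofReal ?_
        simp only [θ]
        rw [abs_mul, abs_of_nonneg (hp0 x)]
        have h1 : |(x i : ℝ)| ≤ 1 / (2 * s) * (x i : ℝ) ^ 2 + s / 2 := by
          have h2 : 0 ≤ (|(x i : ℝ)| - s) ^ 2 := sq_nonneg _
          have h3 : |(x i : ℝ)| ^ 2 = (x i : ℝ) ^ 2 := sq_abs _
          have h4 : 1 / (2 * s) * (x i : ℝ) ^ 2 + s / 2 - |(x i : ℝ)|
              = (|(x i : ℝ)| - s) ^ 2 / (2 * s) := by
            rw [← h3]; field_simp; ring
          have h5 : 0 ≤ (|(x i : ℝ)| - s) ^ 2 / (2 * s) := by positivity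
          linarith
        have h2 := mul_le_mul_of_nonneg_right h1 (hp0 x)
        linarith
    _ = ENNReal.ofReal (1 / (2 * s)) * ∑' x : V d, ENNReal.ofReal ((x i : ℝ) ^ 2 * p x)
          + ENNReal.ofReal (s / 2) * ∑' x : V d, ENNReal.ofReal (p x) := by
        rw [ENNReal.tsum_add, ENNReal.tsum_mul_left, ENNReal.tsum_mul_left]
    _ ≤ ENNReal.ofReal (1 / (2 * s)) * ENNReal.ofReal ((n + 1 : ℕ)) + ENNReal.ofReal (s / 2) * 1 := by
        gcongr
        · exact moment2 hd i (n + 1)
        · exact (mass hd (n + 1)).le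
    _ = ENNReal.ofReal s := by
        rw [mul_one, ← ENNReal.ofReal_mul (by positivity), ← ENNReal.ofReal_add (by positivity)
          (by positivity)]
        congr 1
        push_cast
        rw [← hs2]
        field_simp
        ring

lemma N_grad (hd : 0 < d) (i : Fin d) (n : ℕ) :
    N ((T ^ n) (D i (δ : V d → ℝ))) ≤ ENNReal.ofReal (2 * d / Real.sqrt (n + 1)) := by
  have hd' : (0 : ℝ) < d := by exact_mod_cast hd
  set s : ℝ := Real.sqrt (n + 1) with hs
  have hs0 : 0 < s := Real.sqrt_pos.2 (by positivity)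
  have hs2 : s * s = n + 1 := Real.mul_self_sqrt (by positivity)
  have h1 : (T ^ n) (D i (δ : V d → ℝ))
      = (2 * d / (n + 1 : ℝ)) • θ i ((T ^ (n + 1)) (δ : V d → ℝ)) := by
    rw [θ_T_pow_δ, smul_smul]
    have : (2 * d / (n + 1 : ℝ)) * ((n + 1 : ℝ) / (2 * d : ℝ)) = 1 := by
      field_simp
    rw [this, one_smul]
  rw [h1, N_smul, Real.enorm_eq_ofReal (by positivity)]
  calc ENNReal.ofReal (2 * d / (n + 1 : ℝ)) * N (θ i ((T ^ (n + 1)) (δ : V d → ℝ)))
      ≤ ENNReal.ofReal (2 * d / (n + 1 : ℝ)) * ENNReal.ofReal s := by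
        gcongr
        exact N_θ hd i n
    _ = ENNReal.ofReal (2 * d / s) := by
        rw [← ENNReal.ofReal_mul (by positivity)]
        congr 1
        rw [← hs2]
        field_simp

end R766.Rotor
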