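import Pool.Agent.R766.Rotor.Walk

/-!
A locally random infinite-step stationary measure is never the only one.
-/

open MeasureTheory Filter Topology

namespace R766.Rotor

variable {d : ℕ}

/-- For every finite `S` there is a pattern on `S` off `x` which is compatible, with positive
probability, with every value of the rotor at `x`. -/
def LocRand (μ : Measure (Cfg d)) : Prop :=
  ∀ (S : Finset (V d)) (x : V d), ∃ p : V d → Dir d, ∀ e : Dir d,
    μ {ρ | ρ x = e ∧ ∀ y ∈ S, y ≠ x → ρ y = p y} ≠ 0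

lemma measurable_tot (w : V d → Dir d → ℝ) (c : V d → ℝ) (hc : Summable c)
    (hwc : ∀ x e, |w x e| ≤ c x) : Measurable (tot w) := by
  have h1 : ∀ s : Finset (V d), Measurable (fun ρ : Cfg d => ∑ x ∈ s, w x (ρ x)) := by
    intro s
    refine Finset.measurable_sum s (fun x _ => ?_)
    exact (measurable_of_finite (w x)).comp (measurable_pi_apply x)
  refine measurable_of_tendsto_metrizable' (atTop : Filter (Finset (V d))) h1 ?_
  rw [tendsto_pi_nhds]
  intro ρ
  exact (summable_w w c hc hwc ρ).hasSum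

theorem exists_other (hd : 2 ≤ d) (τ : V d → Equiv.Perm (Dir d)) (hτ : ∀ x, SingleOrbit (τ x))
    (a : V d) (μ : Measure (Cfg d)) (hI : ISS τ a μ) (hL : LocRand μ) :
    ∃ ν, ISS τ a ν ∧ ν ≠ μ := by
  classical
  obtain ⟨h0, hs0, h00, hlap, x0, e0, hne⟩ := exists_h hd
  have hprob := hI.prob
  -- the shifted function
  set h : V d → ℝ := fun x => h0 (x - a) with hh
  have hs : Summable (fun x => |h x|) := (Equiv.subRight a).summable_iff.2 hs0
  have ha : h a = 0 := by simp [hh, h00]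
  have hlap' : ∀ x, ∃ k : ℤ, ∑ e : Dir d, (h (x + vec e) - h x) = 2 * d * k := by
    intro x
    obtain ⟨k, hk⟩ := hlap (x - a)
    refine ⟨k, ?_⟩
    rw [← hk]
    refine Finset.sum_congr rfl (fun e _ => ?_)
    simp only [hh]
    rw [add_sub_right_comm]
  set x1 : V d := x0 + a
  have hne' : ∀ k : ℤ, h (x1 + vec e0) - h x1 ≠ k := by
    intro k
    have h1 : h (x1 + vec e0) = h0 (x0 + vec e0) := by
      simp only [hh, x1]; congr 1; abel
    have h2 : h x1 = h0 x0 := by
      simp only [hh, x1]; congr 1; abel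
    rw [h1, h2]
    exact hne k
  choose k hk using hlap'
  have hW := fun x => exists_weight (τ x) (hτ x) (fun e => h (x + vec e) - h x) (k x) (hk x)
  choose w hw1 hw2 using hW
  set c : V d → ℝ := fun x => 2 * d * ∑ e : Dir d, |h (x + vec e) - h x| with hcdef
  have hc : Summable c := by
    refine Summable.mul_left _ ?_
    refine summable_sum (fun e _ => ?_)
    have h1 : Summable (fun x => |h (x + vec e)|) := (Equiv.addRight (vec e)).summable_iff.2 hs
    refine Summable.of_nonneg_of_le (fun x => abs_nonneg _) (fun x => ?_) (h1.add hs)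
    exact abs_sub _ _
  have hwc : ∀ x e, |w x e| ≤ c x := fun x e => hw2 x e
  have hw : ∀ x e, ∃ k : ℤ, w x (τ x e) = w x e - (h (x + vec (τ x e)) - h x) + k :=
    fun x e => ⟨k x, hw1 x e⟩
  -- the invariant observable
  set F : Cfg d → ℂ := fun ρ => Complex.exp (2 * Real.pi * Complex.I * (tot w ρ : ℝ)) with hF
  have hFm : Measurable F := by
    have h1 := measurable_tot w c hc hwc
    exact Complex.measurable_exp.comp ((Complex.measurable_ofReal.comp h1).const_mul _)
  have hFint : ∀ ρ ρ' : Cfg d, F ρ = F ρ' → ∃ k : ℤ, tot w ρ = tot w ρ' + k := by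
    intro ρ ρ' hρ
    simp only [hF] at hρ
    obtain ⟨m, hm⟩ := Complex.exp_eq_exp_iff_exists_int.1 hρ
    refine ⟨m, ?_⟩
    have h2 : (2 * Real.pi * Complex.I : ℂ) ≠ 0 := Complex.two_pi_I_ne_zero
    have h3 : (2 * Real.pi * Complex.I : ℂ) * ((tot w ρ : ℝ) : ℂ)
        = (2 * Real.pi * Complex.I : ℂ) * (((tot w ρ' + m : ℝ)) : ℂ) := by
      rw [hm]; push_cast; ring
    have h4 := mul_left_cancel₀ h2 h3
    exact_mod_cast h4
  have hFinv : ∀ ρ, Transient τ a ρ → F (final τ a ρ) = F ρ := by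
    intro ρ hT
    obtain ⟨m, hm⟩ := final_inv τ a h w c hc hwc hw hs hT
    simp only [hF]
    rw [Complex.exp_eq_exp_iff_exists_int]
    refine ⟨m, ?_⟩
    rw [hm, ha]; push_cast; ring
  by_contra hcon
  push Not at hcon
  -- zero-one law
  have h01 : ∀ U : Set ℂ, MeasurableSet U → (∀ᵐ ρ ∂μ, F ρ ∈ U) ∨ (∀ᵐ ρ ∂μ, F ρ ∉ U) := by
    intro U hU
    set B : Set (Cfg d) := F ⁻¹' U with hB
    have hBm : MeasurableSet B := hFm hU
    by_cases h0 : μ B = 0
    · right
      exact measure_eq_zero_iff_ae_notMem.1 h0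
    · left
      have hν : ISS τ a (ProbabilityTheory.cond μ B) := by
        refine ⟨ProbabilityTheory.cond_isProbabilityMeasure h0, ?_, ?_⟩
        · exact ProbabilityTheory.cond_absolutelyContinuous.ae_le hI.transient
        · intro A hA
          rw [ProbabilityTheory.cond_apply hBm, ProbabilityTheory.cond_apply hBm]
          congr 1
          rw [← hI.stationary _ (hBm.inter hA)]
          refine measure_congr ?_
          filter_upwards [hI.transient] with ρ hT
          have h1 : (ρ ∈ B) = (final τ a ρ ∈ B) := by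
            simp only [hB, Set.mem_preimage, hFinv ρ hT]
          change (ρ ∈ B ∧ final τ a ρ ∈ A) = (final τ a ρ ∈ B ∧ final τ a ρ ∈ A)
          rw [h1]
      have h1 := hcon _ hν
      have h2 : μ B = 1 := by
        rw [← ProbabilityTheory.cond_apply_self h0 (measure_ne_top μ B), h1]
      have h3 : μ Bᶜ = 0 := by
        rw [prob_compl_eq_zero_iff hBm]; exact h2
      have h4 := measure_eq_zero_iff_ae_notMem.1 h3
      filter_upwards [h4] with ρ hρ
      by_contra hc'
      exact hρ hc'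
  obtain ⟨c0, hc0⟩ := exists_eventuallyEq_const_of_forall_separating
    (l := ae μ) (f := F) MeasurableSet h01
  -- the local contradiction
  set e2 : Dir d := (τ x1).symm e0
  have he2 : τ x1 e2 = e0 := by simp [e2]
  set Δ : ℝ := w x1 e0 - w x1 e2 with hΔ
  have hΔ1 : ∀ m : ℤ, Δ ≠ m := by
    intro m hm
    have h1 := hw1 x1 e2
    rw [he2] at h1
    apply hne' (k x1 - m)
    push_cast
    rw [← hm, hΔ, h1]; ring
  set η : ℝ := |Δ - round Δ| with hη
  have hη0 : 0 < η := abs_pos.2 (sub_ne_zero.2 (hΔ1 _))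
  have hηm : ∀ m : ℤ, η ≤ |Δ - m| := fun m => round_le Δ m
  have hc00 : ∀ x, 0 ≤ c x := fun x => (abs_nonneg _).trans (hwc x e0)
  obtain ⟨S0, hS0⟩ : ∃ S : Finset (V d), (∑' x, c x) - ∑ x ∈ S, c x < η / 3 := by
    have h1 := hc.hasSum
    have h2 : ∀ᶠ S : Finset (V d) in atTop, (∑' x, c x) - η / 3 < ∑ x ∈ S, c x := by
      exact h1.eventually (lt_mem_nhds (by linarith))
    obtain ⟨S, hS⟩ := h2.exists
    exact ⟨S, by linarith⟩
  set S : Finset (V d) := insert x1 S0 with hSdef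
  have hS : (∑' x, c x) - ∑ x ∈ S, c x < η / 3 := by
    have : ∑ x ∈ S0, c x ≤ ∑ x ∈ S, c x :=
      Finset.sum_le_sum_of_subset_of_nonneg (Finset.subset_insert _ _) (fun x _ _ => hc00 x)
    linarith
  obtain ⟨p, hp⟩ := hL S x1
  have hfind : ∀ e, ∃ ρ : Cfg d, (ρ x1 = e ∧ ∀ y ∈ S, y ≠ x1 → ρ y = p y) ∧ F ρ = c0 := by
    intro e
    by_contra hno
    push Not at hno
    apply hp e
    refine measure_eq_zero_iff_ae_notMem.2 ?_
    filter_upwards [hc0] with ρ hρ hmem
    exact hno ρ hmem hρ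
  obtain ⟨ρ1, ⟨h11, h12⟩, h13⟩ := hfind e0
  obtain ⟨ρ2, ⟨h21, h22⟩, h23⟩ := hfind e2
  obtain ⟨m, hm⟩ := hFint ρ1 ρ2 (h13.trans h23.symm)
  have hsub := (summable_w w c hc hwc ρ1).tsum_sub (summable_w w c hc hwc ρ2)
  have hsum12 : Summable (fun x => w x (ρ1 x) - w x (ρ2 x)) :=
    (summable_w w c hc hwc ρ1).sub (summable_w w c hc hwc ρ2)
  have hsplit := hsum12.sum_add_tsum_compl (s := S)
  have hfin : ∑ x ∈ S, (w x (ρ1 x) - w x (ρ2 x)) = Δ := by
    rw [Finset.sum_eq_single x1]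
    · rw [h11, h21]
    · intro y hy hyx
      rw [h12 y hy hyx, h22 y hy hyx, sub_self]
    · intro hx; exact absurd (Finset.mem_insert_self _ _) hx
  have htail : |∑' x : ↑((S : Set (V d))ᶜ), (w x (ρ1 x) - w x (ρ2 x))| ≤ 2 * (η / 3) := by
    have hc2 : Summable (fun x : ↑((S : Set (V d))ᶜ) => 2 * c x) :=
      (hc.mul_left 2).subtype _
    have h1 : ‖∑' x : ↑((S : Set (V d))ᶜ), (w x (ρ1 x) - w x (ρ2 x))‖
        ≤ ∑' x : ↑((S : Set (V d))ᶜ), 2 * c x := by
      refine tsum_of_norm_bounded hc2.hasSum (fun x => ?_)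
      rw [Real.norm_eq_abs]
      calc |w x (ρ1 x) - w x (ρ2 x)| ≤ |w x (ρ1 x)| + |w x (ρ2 x)| := abs_sub _ _
        _ ≤ c x + c x := add_le_add (hwc _ _) (hwc _ _)
        _ = 2 * c x := by ring
    have h2 := hc.sum_add_tsum_compl (s := S)
    rw [Real.norm_eq_abs, tsum_mul_left] at h1
    linarith
  have hfinal : (m : ℝ) = Δ + ∑' x : ↑((S : Set (V d))ᶜ), (w x (ρ1 x) - w x (ρ2 x)) := by
    rw [← hfin, hsplit, hsub]
    unfold tot at hm
    linarith
  have h9 := hηm m
  rw [hfinal] at h9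
  have h10 : |Δ - (Δ + ∑' x : ↑((S : Set (V d))ᶜ), (w x (ρ1 x) - w x (ρ2 x)))|
      = |∑' x : ↑((S : Set (V d))ᶜ), (w x (ρ1 x) - w x (ρ2 x))| := by
    rw [sub_add_cancel_left, abs_neg]
  rw [h10] at h9
  linarith

end R766.Rotor
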