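import Pool.Agent.R766.Rotor.Exists

/-!
Rotor walk, final configurations, infinite-step stationary measures, and the invariant.
-/

open MeasureTheory Filter Topology

namespace R766.Rotor

variable {d : ℕ}

/-- A rotor configuration: the rotor at `x` points to the neighbour `x + vec (ρ x)`.
Configurations carry the product sigma-algebra. -/
abbrev Cfg (d : ℕ) := V d → Dir d

/-- A permutation of the directions with a single orbit. -/
def SingleOrbit (σ : Equiv.Perm (Dir d)) : Prop := ∀ e e' : Dir d, ∃ k : ℕ, (σ ^ k) e = e'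

/-- One step of rotor walk from the state (position, configuration): the rotor at the position
is advanced by the local mechanism and the walker moves where the new rotor points. -/
def step (τ : V d → Equiv.Perm (Dir d)) (s : V d × Cfg d) : V d × Cfg d :=
  (s.1 + vec (τ s.1 (s.2 s.1)), Function.update s.2 s.1 (τ s.1 (s.2 s.1)))

/-- The state of rotor walk from `a` with initial configuration `ρ` at time `t`. -/
def walk (τ : V d → Equiv.Perm (Dir d)) (a : V d) (ρ : Cfg d) (t : ℕ) : V d × Cfg d :=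
  (step τ)^[t] (a, ρ)

/-- The walk visits every vertex finitely often. -/
def Transient (τ : V d → Equiv.Perm (Dir d)) (a : V d) (ρ : Cfg d) : Prop :=
  ∀ x, {t : ℕ | (walk τ a ρ t).1 = x}.Finite

open Classical in
/-- The final rotor configuration: at `x`, the eventual value of the rotor at `x`
(and the initial value if there is no eventual value). -/
noncomputable def final (τ : V d → Equiv.Perm (Dir d)) (a : V d) (ρ : Cfg d) : Cfg d :=
  fun x => if h : ∃ e, ∀ᶠ t in atTop, (walk τ a ρ t).2 x = e then h.choose else ρ x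

/-- Infinite-step stationary measures for rotor walk from `a` with mechanisms `τ`. -/
structure ISS (τ : V d → Equiv.Perm (Dir d)) (a : V d) (μ : Measure (Cfg d)) : Prop where
  prob : IsProbabilityMeasure μ
  transient : ∀ᵐ ρ ∂μ, Transient τ a ρ
  stationary : ∀ A, MeasurableSet A → μ (final τ a ⁻¹' A) = μ A

/-! ### Weights -/

lemma exists_weight (σ : Equiv.Perm (Dir d)) (hσ : SingleOrbit σ) (D : Dir d → ℝ) (k : ℤ)
    (hk : ∑ e, D e = 2 * d * k) :
    ∃ w : Dir d → ℝ, (∀ e, w (σ e) = w e - D (σ e) + k) ∧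
      ∀ e, |w e| ≤ 2 * d * ∑ e', |D e'| := by
  classical
  rcases Nat.eq_zero_or_pos d with hd | hd
  · subst hd
    exact ⟨fun _ => 0, fun e => e.1.elim0, fun e => e.1.elim0⟩
  have hd' : (0 : ℝ) < d := by exact_mod_cast hd
  set n : ℕ := (Finset.univ : Finset (Dir d)).card with hn
  have hn2 : n = 2 * d := by simp [hn, mul_comm]
  have hnR : (n : ℝ) = 2 * d := by rw [hn2]; push_cast; ring
  have hn0 : (0 : ℝ) < n := by rw [hnR]; positivity
  have hcyc : σ.IsCycleOn ((Finset.univ : Finset (Dir d)) : Set (Dir d)) := by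
    refine ⟨?_, ?_⟩
    · rw [Finset.coe_univ]
      exact Set.bijOn_univ.2 σ.bijective
    · intro x _ y _
      obtain ⟨m, hm⟩ := hσ x y
      exact ⟨m, by rw [zpow_natCast]; exact hm⟩
  have hsum : ∀ e, ∑ j ∈ Finset.range n, D ((σ ^ (j + 1)) e) = 2 * d * k := by
    intro e
    have hinj : Set.InjOn (fun j : ℕ => (σ ^ (j + 1)) e) (Finset.range n : Set ℕ) := by
      intro a ha b hb hab
      have h1 := (hcyc.pow_apply_eq_pow_apply (Finset.mem_univ e)).1 hab
      have h2 : a ≡ b [MOD n] := Nat.ModEq.add_right_cancel' 1 h1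
      exact Nat.ModEq.eq_of_lt_of_lt h2 (by simpa using ha) (by simpa using hb)
    have himg : (Finset.range n).image (fun j : ℕ => (σ ^ (j + 1)) e) = Finset.univ := by
      apply Finset.eq_univ_of_card
      rw [Finset.card_image_of_injOn hinj, Finset.card_range, hn, Finset.card_univ]
    rw [← hk, ← himg, Finset.sum_image hinj]
  refine ⟨fun e => -((1 / (n : ℝ)) * ∑ j ∈ Finset.range n, (j : ℝ) * D ((σ ^ (j + 1)) e)), ?_, ?_⟩
  · intro e
    have h1 : ∀ j : ℕ, (σ ^ (j + 1)) (σ e) = (σ ^ (j + 1 + 1)) e := by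
      intro j
      rw [pow_succ σ (j + 1), Equiv.Perm.mul_apply]
    simp only [h1]
    have h2 : ∑ j ∈ Finset.range n, (j : ℝ) * D ((σ ^ (j + 1 + 1)) e)
        = ∑ j ∈ Finset.range n, (j : ℝ) * D ((σ ^ (j + 1)) e) + n * D (σ e) - 2 * d * k := by
      have h3 : ∑ j ∈ Finset.range n, (j : ℝ) * D ((σ ^ (j + 1 + 1)) e)
          = ∑ j ∈ Finset.range n, ((j + 1 : ℕ) : ℝ) * D ((σ ^ (j + 1 + 1)) e)
            - ∑ j ∈ Finset.range n, D ((σ ^ (j + 1)) (σ e)) := by
        rw [← Finset.sum_sub_distrib]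
        refine Finset.sum_congr rfl (fun j _ => ?_)
        rw [h1]; push_cast; ring
      rw [h3, hsum (σ e)]
      have h4 : ∑ j ∈ Finset.range n, ((j + 1 : ℕ) : ℝ) * D ((σ ^ (j + 1 + 1)) e)
          = ∑ j ∈ Finset.range (n + 1), (j : ℝ) * D ((σ ^ (j + 1)) e) := by
        rw [Finset.sum_range_succ' (fun j : ℕ => (j : ℝ) * D ((σ ^ (j + 1)) e))]
        simp
      rw [h4, Finset.sum_range_succ]
      have h5 : (σ ^ (n + 1)) e = σ e := by
        rw [pow_succ', Equiv.Perm.mul_apply, hcyc.pow_card_apply (Finset.mem_univ e)]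
      rw [h5]
    rw [h2, ← hnR]
    field_simp
    ring
  · intro e
    rw [abs_neg, abs_mul, abs_of_nonneg (by positivity : (0 : ℝ) ≤ 1 / n)]
    have h1 : |∑ j ∈ Finset.range n, (j : ℝ) * D ((σ ^ (j + 1)) e)|
        ≤ ∑ j ∈ Finset.range n, (n : ℝ) * ∑ e', |D e'| := by
      refine (Finset.abs_sum_le_sum_abs _ _).trans (Finset.sum_le_sum (fun j hj => ?_))
      rw [abs_mul, abs_of_nonneg (by positivity : (0 : ℝ) ≤ (j : ℝ))]
      have hjn : (j : ℝ) ≤ n := by exact_mod_cast (Finset.mem_range.1 hj).le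
      have h2 : |D ((σ ^ (j + 1)) e)| ≤ ∑ e', |D e'| :=
        Finset.single_le_sum (f := fun e' => |D e'|) (fun _ _ => abs_nonneg _)
          (Finset.mem_univ _)
      exact mul_le_mul hjn h2 (abs_nonneg _) (by positivity)
    rw [Finset.sum_const, Finset.card_range, nsmul_eq_mul] at h1
    calc 1 / (n : ℝ) * |∑ j ∈ Finset.range n, (j : ℝ) * D ((σ ^ (j + 1)) e)|
        ≤ 1 / (n : ℝ) * (n * (n * ∑ e', |D e'|)) := by gcongr
      _ = 2 * d * ∑ e', |D e'| := by rw [← hnR]; field_simp

/-! ### The invariant -/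

/-- The total weight of a configuration. -/
noncomputable def tot (w : V d → Dir d → ℝ) (ρ : Cfg d) : ℝ := ∑' x, w x (ρ x)

section invariant

variable (τ : V d → Equiv.Perm (Dir d)) (a : V d) (h : V d → ℝ) (w : V d → Dir d → ℝ)
  (c : V d → ℝ) (hc : Summable c) (hwc : ∀ x e, |w x e| ≤ c x)
  (hw : ∀ x e, ∃ k : ℤ, w x (τ x e) = w x e - (h (x + vec (τ x e)) - h x) + k)

include hc hwc in
lemma summable_w (ρ : Cfg d) : Summable (fun x => w x (ρ x)) :=
  Summable.of_norm_bounded hc (fun x => hwc x _)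

include hc hwc in
lemma tot_update (ρ : Cfg d) (x : V d) (e : Dir d) :
    tot w (Function.update ρ x e) = tot w ρ + (w x e - w x (ρ x)) := by
  have h1 := (summable_w w c hc hwc (Function.update ρ x e)).tsum_sub (summable_w w c hc hwc ρ)
  have h2 : ∑' y, (w y (Function.update ρ x e y) - w y (ρ y)) = w x e - w x (ρ x) := by
    rw [tsum_eq_single x]
    · simp
    · intro y hy
      rw [Function.update_of_ne hy]; ring
  unfold tot
  linarith

include hc hwc hw in
lemma step_inv (s : V d × Cfg d) :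
    ∃ k : ℤ, h (step τ s).1 + tot w (step τ s).2 = h s.1 + tot w s.2 + k := by
  obtain ⟨k, hk⟩ := hw s.1 (s.2 s.1)
  refine ⟨k, ?_⟩
  simp only [step]
  rw [tot_update w c hc hwc, hk]
  ring

include hc hwc hw in
lemma walk_inv (ρ : Cfg d) (t : ℕ) :
    ∃ k : ℤ, h (walk τ a ρ t).1 + tot w (walk τ a ρ t).2 = h a + tot w ρ + k := by
  induction t with
  | zero => exact ⟨0, by simp [walk]⟩
  | succ t ih =>
    obtain ⟨k, hk⟩ := ih
    obtain ⟨l, hl⟩ := step_inv τ h w c hc hwc hw (walk τ a ρ t)
    refine ⟨k + l, ?_⟩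
    have : walk τ a ρ (t + 1) = step τ (walk τ a ρ t) := by
      simp only [walk, Function.iterate_succ_apply']
    rw [this, hl, hk]
    push_cast; ring

lemma final_spec {ρ : Cfg d} (hT : Transient τ a ρ) (x : V d) :
    ∀ᶠ t in atTop, (walk τ a ρ t).2 x = final τ a ρ x := by
  classical
  have hex : ∃ e, ∀ᶠ t in atTop, (walk τ a ρ t).2 x = e := by
    obtain ⟨M, hM⟩ := (hT x).bddAbove
    have hM' : ∀ t, M < t → (walk τ a ρ t).1 ≠ x := by
      intro t ht hx
      exact absurd (hM hx) (not_le.2 ht)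
    refine ⟨(walk τ a ρ (M + 1)).2 x, ?_⟩
    filter_upwards [eventually_ge_atTop (M + 1)] with t ht
    induction t, ht using Nat.le_induction with
    | base => rfl
    | succ t ht ih =>
      have h1 : walk τ a ρ (t + 1) = step τ (walk τ a ρ t) := by
        simp only [walk, Function.iterate_succ_apply']
      rw [h1]
      simp only [step]
      rw [Function.update_of_ne (hM' t (by omega)).symm]
      exact ih
  have : final τ a ρ x = hex.choose := by
    unfold final
    rw [dif_pos hex]
  rw [this]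
  exact hex.choose_spec

include hc hwc hw in
lemma final_inv (hh : Summable (fun x => |h x|)) {ρ : Cfg d} (hT : Transient τ a ρ) :
    ∃ k : ℤ, tot w (final τ a ρ) = h a + tot w ρ + k := by
  have h1 : Tendsto (fun t => h (walk τ a ρ t).1) atTop (𝓝 0) := by
    have h2 := hh.tendsto_cofinite_zero
    have h3 : Tendsto (fun t => (walk τ a ρ t).1) atTop cofinite := by
      rw [← Nat.cofinite_eq_atTop]
      refine Tendsto.cofinite_of_finite_preimage_singleton (fun x => ?_)
      exact hT x
    exact (tendsto_zero_iff_abs_tendsto_zero _).2 (h2.comp h3)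
  have h2 : Tendsto (fun t => tot w (walk τ a ρ t).2) atTop (𝓝 (tot w (final τ a ρ))) := by
    unfold tot
    refine tendsto_tsum_of_dominated_convergence hc (fun x => ?_) ?_
    · refine tendsto_const_nhds.congr' ?_
      filter_upwards [final_spec τ a hT x] with t ht
      rw [ht]
    · exact Eventually.of_forall (fun t x => hwc x _)
  have h3 : Tendsto (fun t => h (walk τ a ρ t).1 + tot w (walk τ a ρ t).2 - (h a + tot w ρ)) atTop
      (𝓝 (0 + tot w (final τ a ρ) - (h a + tot w ρ))) := (h1.add h2).sub_const _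
  have hcl : IsClosed (Set.range ((↑) : ℤ → ℝ)) := Int.isClosedEmbedding_coe_real.isClosed_range
  have h4 := hcl.mem_of_tendsto h3 (Eventually.of_forall (fun t => by
    obtain ⟨k, hk⟩ := walk_inv τ a h w c hc hwc hw ρ t
    exact ⟨k, by rw [hk]; ring⟩))
  obtain ⟨k, hk⟩ := h4
  exact ⟨k, by rw [hk]; ring⟩

end invariant

end R766.Rotor
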